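import Pool.Agent.X133.QD.Box

/-! Quantum diffusion in all boxes, from any profile of the resolvent. -/

set_option autoImplicit false
set_option linter.unusedSectionVars false
set_option linter.unusedVariables false

open scoped BigOperators Topology
open MeasureTheory Filter Set

namespace Pool.Agent.X133.QD

open Pool.Agent.W788.BK
open Pool.Agent.H4R2.LO (Zd)
open Pool.Agent.W788.BK.Num
open Pool.Agent.TH794.QD
open Pool.Agent.TH794.QE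
open Pool.Agent.TH794.HK
open Pool.Agent.X133.LL
open Pool.Agent.X133.QE

variable {d : ℕ}

/-- the phase around a site -/
theorem phase_eq (p : Fin d → ℝ) (x : Zd d) (g : Zd d → ℂ) (r : ℝ) :
    ‖∑' y, (starRingEnd ℂ) (ph p y) * ((‖g (y - x)‖ ^ 2 : ℝ) : ℂ) -
      (starRingEnd ℂ) (ph p x) * (r : ℂ)‖ = ‖∑' y, ph p y * ((‖g y‖ ^ 2 : ℝ) : ℂ) - (r : ℂ)‖ := by
  have h1 : ∑' y, (starRingEnd ℂ) (ph p y) * ((‖g (y - x)‖ ^ 2 : ℝ) : ℂ) =
      ∑' y, (starRingEnd ℂ) (ph p x) * ((starRingEnd ℂ) (ph p y) * ((‖g y‖ ^ 2 : ℝ) : ℂ)) := by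
    rw [← (Equiv.addRight x).tsum_eq fun y => (starRingEnd ℂ) (ph p y) *
      ((‖g (y - x)‖ ^ 2 : ℝ) : ℂ)]
    refine tsum_congr fun y => ?_
    simp only [Equiv.coe_addRight, add_sub_cancel_right]
    have h2 : ph p (y + x) = ph p x * ph p y := by
      unfold ph
      rw [← Complex.exp_add]
      congr 1
      push_cast [Pi.add_apply]
      rw [← mul_add, ← Finset.sum_add_distrib]
      congr 1
      refine Finset.sum_congr rfl fun i _ => ?_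
      ring
    rw [h2, map_mul]
    ring
  have h3 : ∀ y, (starRingEnd ℂ) (ph p y) * ((‖g y‖ ^ 2 : ℝ) : ℂ) =
      (starRingEnd ℂ) (ph p y * ((‖g y‖ ^ 2 : ℝ) : ℂ)) := by
    intro y
    rw [map_mul, Complex.conj_ofReal]
  rw [h1, tsum_mul_left, tsum_congr h3, ← Complex.conj_tsum]
  have h4 : (starRingEnd ℂ) (ph p x) * (starRingEnd ℂ) (∑' y, ph p y * ((‖g y‖ ^ 2 : ℝ) : ℂ)) -
      (starRingEnd ℂ) (ph p x) * (r : ℂ) = (starRingEnd ℂ) (ph p x *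
        (∑' y, ph p y * ((‖g y‖ ^ 2 : ℝ) : ℂ) - (r : ℂ))) := by
    rw [map_mul, map_sub, Complex.conj_ofReal]
    ring
  rw [h4, Complex.norm_conj, norm_mul, ph_norm, one_mul]

/-- the profile depends continuously on the energy -/
theorem Tg_lip (m C U r G0 G1 G0' G1' u : ℝ) (hm : 0 < m) (hu : 0 ≤ u) (huU : u ≤ U)
    (h1 : m ≤ G1) (h2 : G1 ≤ G0) (h3 : G0 ≤ C) (h1' : m ≤ G1') (h2' : G1' ≤ G0') (h3' : G0' ≤ C)
    (hr0 : 0 ≤ r) (hr : |G0' - G0| ≤ r) (hr' : |G1' - G1| ≤ r) :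
    |G0' / (1 + u * (G1' / G0' ^ 2)) - G0 / (1 + u * (G1 / G0 ^ 2))| ≤
      r * (1 + C * U * (1 / m ^ 2 + 2 * C ^ 2 / m ^ 4)) := by
  have hG0 : 0 < G0 := hm.trans_le (h1.trans h2)
  have hG0' : 0 < G0' := hm.trans_le (h1'.trans h2')
  have hG1 : 0 < G1 := hm.trans_le h1
  have hG1' : 0 < G1' := hm.trans_le h1'
  have hC : 0 < C := hG0.trans_le h3
  have hmG0 : m ≤ G0 := h1.trans h2
  have hmG0' : m ≤ G0' := h1'.trans h2'
  obtain ⟨R, hR⟩ : ∃ R, R = G1 / G0 ^ 2 := ⟨_, rfl⟩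
  obtain ⟨R', hR'⟩ : ∃ R', R' = G1' / G0' ^ 2 := ⟨_, rfl⟩
  have hR0 : 0 ≤ R := by rw [hR]; positivity
  have hR0' : 0 ≤ R' := by rw [hR']; positivity
  rw [← hR, ← hR']
  have hRR : |R' - R| ≤ r * (1 / m ^ 2 + 2 * C ^ 2 / m ^ 4) := by
    have e1 : R' - R = (G1' - G1) / G0' ^ 2 - G1 * (G0' - G0) * (G0' + G0) / (G0 ^ 2 * G0' ^ 2) := by
      rw [hR, hR']
      field_simp
      ring
    have e2 : |(G1' - G1) / G0' ^ 2| ≤ r / m ^ 2 := by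
      rw [abs_div, abs_of_pos (by positivity : 0 < G0' ^ 2)]
      apply div_le_div₀ hr0 hr' (by positivity)
      exact pow_le_pow_left₀ hm.le hmG0' 2
    have e3 : |G1 * (G0' - G0) * (G0' + G0) / (G0 ^ 2 * G0' ^ 2)| ≤ C * r * (2 * C) / m ^ 4 := by
      rw [abs_div, abs_of_pos (by positivity : 0 < G0 ^ 2 * G0' ^ 2), abs_mul, abs_mul,
        abs_of_pos hG1, abs_of_pos (by positivity : 0 < G0' + G0)]
      apply div_le_div₀ (by positivity) _ (by positivity) _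
      · have : G1 ≤ C := h2.trans h3
        gcongr
        linarith
      · have k1 : m ^ 2 ≤ G0 ^ 2 := pow_le_pow_left₀ hm.le hmG0 2
        have k2 : m ^ 2 ≤ G0' ^ 2 := pow_le_pow_left₀ hm.le hmG0' 2
        calc m ^ 4 = m ^ 2 * m ^ 2 := by ring
          _ ≤ G0 ^ 2 * G0' ^ 2 := by gcongr
    rw [e1]
    refine (abs_sub _ _).trans ((add_le_add e2 e3).trans (le_of_eq ?_))
    ring
  have e4 : G0' / (1 + u * R') - G0 / (1 + u * R) = (G0' - G0) / (1 + u * R') -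
      G0 * (u * (R' - R)) / ((1 + u * R') * (1 + u * R)) := by
    field_simp
    ring
  have d1 : 1 ≤ 1 + u * R' := by have := mul_nonneg hu hR0'; linarith
  have d2 : 1 ≤ 1 + u * R := by have := mul_nonneg hu hR0; linarith
  have e5 : |(G0' - G0) / (1 + u * R')| ≤ r := by
    rw [abs_div, abs_of_pos (by linarith : 0 < 1 + u * R')]
    exact (div_le_self (abs_nonneg _) d1).trans hr
  have e6 : |G0 * (u * (R' - R)) / ((1 + u * R') * (1 + u * R))| ≤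
      C * (U * (r * (1 / m ^ 2 + 2 * C ^ 2 / m ^ 4))) := by
    have hdd : 1 ≤ (1 + u * R') * (1 + u * R) := one_le_mul_of_one_le_of_one_le d1 d2
    rw [abs_div, abs_of_pos (by linarith : 0 < (1 + u * R') * (1 + u * R))]
    refine (div_le_self (abs_nonneg _) hdd).trans ?_
    rw [abs_mul, abs_mul, abs_of_pos hG0, abs_of_nonneg hu]
    have hU0 : 0 ≤ U := hu.trans huU
    gcongr
  rw [e4]
  refine (abs_sub _ _).trans ((add_le_add e5 e6).trans (le_of_eq ?_))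
  ring

/-- **from the profile of the resolvent to quantum diffusion in all boxes** -/
theorem qd_abs (d : ℕ) (hd1 : 1 ≤ d) (m C ε T A v Vb : ℝ) (hm : 0 < m) (hC0 : 0 ≤ C) (hε : 0 < ε)
    (hT : 0 < T) (hA : 0 < A) (hv : 0 < v) (hVb0 : 0 < Vb) :
    ∃ (M : ℝ) (N : ℕ) (err0 lam0 : ℝ), 1 ≤ M ∧ 1 ≤ N ∧ 0 < err0 ∧ 0 < lam0 ∧
    ∀ c : ℝ, 0 < c → c ≤ lam0 → ∀ (μ : Measure ℝ) [IsProbabilityMeasure μ], ∀ Mn V : ℝ,
      v ≤ V → V ≤ Vb ^ 2 → ∀ (Bd : ℝ → Prop) (γ0 γ1 : ℝ → ℂ),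
      (∀ E, Bd E → m ≤ (γ1 E).im ∧ (γ1 E).im ≤ (γ0 E).im ∧ (γ0 E).im ≤ C) →
      ∀ lo hi err : ℝ, c ^ (81 / 40 : ℝ) ≤ lo → hi ≤ 1 → 0 ≤ err → err ≤ err0 →
      (∀ E E', Bd E → Bd E' → |E - E'| ≤ hi → |(γ0 E).im - (γ0 E').im| ≤ err ∧
        |(γ1 E).im - (γ1 E').im| ≤ err) →
      ∀ G1 : Set (Zd d → ℝ), MeasurableSet G1 →
      (∀ ω ∈ G1, ∀ e : ℝ, Bd (2 * d + c * Mn - e) → ∀ η : ℝ, lo ≤ η → η ≤ hi →
        (∃ u, Rs d (fun x => 2 * d + c * ω x) 0 e η u) ∧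
        ∀ u, Rs d (fun x => 2 * d + c * ω x) 0 e η u →
        ∀ p : Fin d → ℝ, ∑ i, p i ^ 2 ≤ (N : ℝ) ^ 2 * (η * (c ^ 2 * V)) →
          ‖((η : ℝ) : ℂ) * ∑' y, ph p (y - 0) * ((‖u y‖ ^ 2 : ℝ) : ℂ) -
            ((Tg γ0 γ1 η (c ^ 2 * V) (2 * d + c * Mn - e) p : ℝ) : ℂ)‖ ≤ err) →
      ∃ G : Set (Zd d → ℝ), MeasurableSet G ∧
        1 - 10 ^ d * (Measure.infinitePi fun _ : Zd d => μ).real G1ᶜ / c ^ 3 ≤
          (Measure.infinitePi fun _ : Zd d => μ).real G ∧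
        ∀ ω ∈ G, ∀ L : ℕ, 1 / c ^ 9 ≤ (L : ℝ) → ∀ e : ℝ,
          (∀ e' : ℝ, |e' - e| ≤ hi → Bd (2 * d + c * Mn - e')) →
          ∀ s s0 : ℝ, M * lo ≤ s → M * s ≤ s0 → s0 ≤ hi →
          ∀ (ι : Type) [Fintype ι] (u : ι → Zd d → ℂ) (En : ι → ℝ),
            EF (Bx 0 L) (fun x => 2 * d + c * ω x) u En →
            Fintype.card ι = (Bx (0 : Zd d) L).card →
            ((γ0 (2 * d + c * Mn - e)).im * s0 * (Bx (0 : Zd d) L).card ≤ 3 * Nw En e s0) ∧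
            ∀ p : Fin d → ℝ, ∑ i, p i ^ 2 ≤ A * (c ^ 2 * s) → ∀ t : ℝ, |t| ≤ T / s →
              ‖Cw En (fun i j => ‖Am (Bx 0 L) u (ph p) i j‖ ^ 2) e s0 t -
                ((Nw En e s0 * Real.exp (-(2 * (∑ i, p i ^ 2) / (c ^ 2 * V) *
                  ((γ1 (2 * d + c * Mn - e)).im / (γ0 (2 * d + c * Mn - e)).im ^ 2) * |t|)) : ℝ) :
                  ℂ)‖ ≤ ε * Nw En e s0 := by
  have hd0 : (0 : ℝ) < d := by
    have : 0 < d := by omega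
    exact_mod_cast this
  obtain ⟨M, δ0, hM1, hδ0, hdet⟩ := time_det ε T (2 * A / (v * m)) m hε hT (by positivity) hm
  have hM0 : 0 < M := by linarith
  obtain ⟨U, hU⟩ : ∃ U, U = A * M / v := ⟨_, rfl⟩
  have hU0 : 0 ≤ U := by rw [hU]; positivity
  obtain ⟨N, hN⟩ := exists_nat_ge (max 1 U)
  have hN1 : (1 : ℝ) ≤ N := (le_max_left _ _).trans hN
  have hN2 : U ≤ N := (le_max_right _ _).trans hN
  have hNN : U ≤ (N : ℝ) ^ 2 := hN2.trans (by nlinarith)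
  obtain ⟨KL, hKL⟩ : ∃ KL, KL = 1 + C * U * (1 / m ^ 2 + 2 * C ^ 2 / m ^ 4) := ⟨_, rfl⟩
  have hKL1 : 1 ≤ KL := by
    rw [hKL]
    have : 0 ≤ C * U * (1 / m ^ 2 + 2 * C ^ 2 / m ^ 4) := by positivity
    linarith
  obtain ⟨δ, hδd⟩ : ∃ δ, δ = δ0 / (8 * (C + 1)) := ⟨_, rfl⟩
  have hδ : 0 < δ := by rw [hδd]; positivity
  have hδ2 : δ * (C + 1) ≤ δ0 / 8 := by
    rw [hδd]
    apply le_of_eq
    field_simp
  have hev : ∀ᶠ c in 𝓝[>] (0 : ℝ),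
      ((16 * (d : ℝ) ^ 3) * c ^ (15 / 8 : ℝ) ≤ δ0 / 8) ∧
      (((1 + 1 / δ) * (16 * (d : ℝ) ^ 3)) * c ^ (15 / 8 : ℝ) ≤ δ0 / 8) ∧
      ((1 + 2 * (d : ℝ)) * c ^ (39 / 40 : ℝ) ≤ δ0 / 8) ∧
      ((C * (1 + 2 * (d : ℝ))) * c ^ (3 : ℝ) ≤ δ0 / 8) ∧
      (1 * c ^ (1 : ℝ) ≤ 1 / 2) := by
    have hδ8 : 0 < δ0 / 8 := by positivity
    filter_upwards [ev_pow (16 * (d : ℝ) ^ 3) _ (15 / 8) hδ8 (by norm_num),
      ev_pow ((1 + 1 / δ) * (16 * (d : ℝ) ^ 3)) _ (15 / 8) hδ8 (by norm_num),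
      ev_pow (1 + 2 * (d : ℝ)) _ (39 / 40) hδ8 (by norm_num),
      ev_pow (C * (1 + 2 * (d : ℝ))) _ 3 hδ8 (by norm_num),
      ev_pow 1 (1 / 2) 1 (by norm_num) one_pos]
      with c h2 h3 h6 h7 h10
    exact ⟨h2, h3, h6, h7, h10⟩
  obtain ⟨lam0, hlam0, hev2⟩ := mem_nhdsGT_iff_exists_Ioc_subset.1 hev
  refine ⟨M, N, min 1 (δ0 / (8 * (1 + KL))), lam0, hM1, by exact_mod_cast hN1,
    lt_min one_pos (by positivity), hlam0, ?_⟩
  intro c hc hcl μ hμ Mn V hVv hVb Bd γ0 γ1 hl lo hi err hlo hhi herr0 herr hcont G1 hG1m hG1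
  have hVpos : 0 < V := hv.trans_le hVv
  obtain ⟨n2, n3, n6, n7, n10⟩ := hev2 ⟨hc, hcl⟩
  rw [one_mul, Real.rpow_one] at n10
  have hc12 : c ≤ 1 / 2 := n10
  have hcle : c ≤ 1 := by linarith
  have herr1 : err ≤ 1 := herr.trans (min_le_left _ _)
  have herr2 : err * (1 + KL) ≤ δ0 / 8 := by
    have h1 : err ≤ δ0 / (8 * (1 + KL)) := herr.trans (min_le_right _ _)
    rw [le_div_iff₀ (by positivity)] at h1
    linarith
  obtain ⟨hm1, hm2⟩ := maximal (d := d) μ G1ᶜ hG1m.compl (c ^ 3) (by positivity)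
  refine ⟨{ω | ∃ L : ℕ, c ^ 3 * ((Bx (0 : Fin d → ℤ) L).card : ℝ) <
      (bad G1ᶜ ω (Bx 0 L)).card}ᶜ, hm1.compl, ?_, ?_⟩
  · rw [probReal_compl_eq_one_sub hm1]
    linarith
  intro ω hω L hL e hBde s s0 hs hMs hs0hi ι _ u En hEF hcard
  have hbadL : ((bad G1ᶜ ω (Bx 0 L)).card : ℝ) ≤ c ^ 3 * ((Bx (0 : Fin d → ℤ) L).card : ℝ) := by
    by_contra hcon
    exact hω ⟨L, not_le.1 hcon⟩
  -- the scale
  have hlo0 : 0 < lo := lt_of_lt_of_le (by positivity) hlo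
  have hloM : lo ≤ s / M := by rw [le_div_iff₀ hM0]; linarith
  have hs0 : 0 < s := lt_of_lt_of_le (by positivity) hs
  -- the radius
  obtain ⟨R, hR⟩ : ∃ R : ℕ, R = ⌈(c ^ 6)⁻¹⌉₊ := ⟨_, rfl⟩
  obtain ⟨hR1, hR2, hR3⟩ := radius c hc hcle
  rw [← hR] at hR1 hR2 hR3
  have hc9 : (0 : ℝ) < c ^ 9 := by positivity
  have hL0 : (0 : ℝ) < L := lt_of_lt_of_le (by positivity) hL
  have hRL1 : (R : ℝ) ≤ 2 * c ^ 3 * L := by
    have h1 : 2 * (c ^ 6)⁻¹ = 2 * c ^ 3 * (1 / c ^ 9) := by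
      field_simp
    calc (R : ℝ) ≤ 2 * (c ^ 6)⁻¹ := hR2
      _ = 2 * c ^ 3 * (1 / c ^ 9) := h1
      _ ≤ 2 * c ^ 3 * L := by gcongr
  have hc3 : c ^ 3 ≤ 1 / 8 := by
    have : c ^ 3 ≤ (1 / 2) ^ 3 := pow_le_pow_left₀ hc.le hc12 3
    linarith
  have hRL : R ≤ L := by
    have h1 : (R : ℝ) ≤ L := by
      have := mul_le_mul_of_nonneg_right hc3 hL0.le
      linarith
    exact_mod_cast h1
  have hLpos : 0 < L := by exact_mod_cast hL0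
  -- the bad set
  obtain ⟨B, hBd⟩ : ∃ B, B = bad G1ᶜ ω (Bx 0 L) ∪ (Bx (0 : Zd d) L \ Bx 0 (L - R)) := ⟨_, rfl⟩
  have hB : B ⊆ Bx 0 L := by
    rw [hBd]
    apply Finset.union_subset
    · intro y hy
      exact (mem_bad.1 hy).1
    · exact Finset.sdiff_subset
  obtain ⟨Lc, hLc⟩ : ∃ Lc : ℝ, Lc = ((Bx (0 : Zd d) L).card : ℝ) := ⟨_, rfl⟩
  have hLc0 : 0 ≤ Lc := by rw [hLc]; exact Nat.cast_nonneg _
  have hBc : (B.card : ℝ) ≤ (1 + 2 * d) * c ^ 3 * Lc := by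
    have h1 : (B.card : ℝ) ≤ (bad G1ᶜ ω (Bx 0 L)).card +
        ((Bx (0 : Zd d) L \ Bx 0 (L - R)).card : ℝ) := by
      rw [hBd]
      exact_mod_cast Finset.card_union_le _ _
    have h2 := shallow (d := d) L R hRL hLpos
    have h3 : (d : ℝ) * R / L ≤ d * (2 * c ^ 3) := by
      rw [div_le_iff₀ hL0, mul_assoc]
      gcongr
    have h4 : (d : ℝ) * R / L * (Bx (0 : Zd d) L).card ≤ d * (2 * c ^ 3) * Lc := by
      rw [← hLc]
      gcongr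
    rw [← hLc] at hbadL
    linarith
  have hdeep : ∀ x0 ∈ Bx (0 : Zd d) L \ B, ∀ y, y ∉ Bx (0 : Zd d) L → (R : ℝ) ≤ ‖y - x0‖ := by
    intro x0 hx0 y hy
    rw [Finset.mem_sdiff, hBd, Finset.mem_union, not_or] at hx0
    have h1 : x0 ∈ Bx (0 : Zd d) (L - R) := by
      by_contra hcon
      exact hx0.2.2 (Finset.mem_sdiff.2 ⟨hx0.1, hcon⟩)
    exact deep L R hRL x0 h1 y hy
  have hgood : ∀ x0 ∈ Bx (0 : Zd d) L \ B, sh x0 ω ∈ G1 := by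
    intro x0 hx0
    rw [Finset.mem_sdiff, hBd, Finset.mem_union, not_or] at hx0
    by_contra hcon
    exact hx0.2.1 (mem_bad.2 ⟨hx0.1, hcon⟩)
  have hR12 : 1 / (R : ℝ) ^ 2 ≤ c ^ 12 := by
    have h2 : ((c ^ 6)⁻¹) ^ 2 ≤ (R : ℝ) ^ 2 := pow_le_pow_left₀ (by positivity) hR1 2
    rw [div_le_iff₀ (by positivity)]
    calc (1 : ℝ) = c ^ 12 * ((c ^ 6)⁻¹) ^ 2 := by
          field_simp
      _ ≤ c ^ 12 * (R : ℝ) ^ 2 := by gcongr
  have hfar : ∀ η : ℝ, lo ≤ η → 16 * (d : ℝ) ^ 3 * (η⁻¹) ^ 4 / (R : ℝ) ^ 2 ≤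
      16 * (d : ℝ) ^ 3 * (η * c ^ (15 / 8 : ℝ)) := by
    intro η hη
    have hsc := scale c η hc (hlo.trans hη)
    have hη0 : 0 < η := hlo0.trans_le hη
    calc 16 * (d : ℝ) ^ 3 * (η⁻¹) ^ 4 / (R : ℝ) ^ 2 =
          16 * (d : ℝ) ^ 3 * ((η⁻¹) ^ 4 * (1 / (R : ℝ) ^ 2)) := by ring
      _ ≤ 16 * (d : ℝ) ^ 3 * ((η⁻¹) ^ 4 * c ^ 12) := by gcongr
      _ ≤ _ := by gcongr
  obtain ⟨i0⟩ : Nonempty (Fin d) := ⟨⟨0, by omega⟩⟩
  obtain ⟨K', hK'd⟩ : ∃ K', K' = 16 * (d : ℝ) ^ 3 * c ^ (15 / 8 : ℝ) := ⟨_, rfl⟩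
  have hK'0 : 0 ≤ K' := by rw [hK'd]; positivity
  -- the values at the energy `e`
  have hhi0 : 0 ≤ hi := by
    have h1 : 0 < M * s := by positivity
    linarith
  obtain ⟨hl1, hl2, hl3⟩ := hl _ (hBde e (by rw [sub_self, abs_zero]; exact hhi0))
  obtain ⟨g0, hg0⟩ : ∃ g0, g0 = (γ0 (2 * d + c * Mn - e)).im := ⟨_, rfl⟩
  obtain ⟨g1, hg1⟩ : ∃ g1, g1 = (γ1 (2 * d + c * Mn - e)).im := ⟨_, rfl⟩
  rw [← hg0, ← hg1]
  rw [← hg0] at hl2 hl3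
  rw [← hg1] at hl1 hl2
  have hmg0 : m ≤ g0 := hl1.trans hl2
  have hg00 : 0 < g0 := hm.trans_le hmg0
  have hg10 : 0 < g1 := hm.trans_le hl1
  have hCpos : 0 < C := hg00.trans_le hl3
  have hbe0 : Bd (2 * d + c * Mn - e) := hBde e (by rw [sub_self, abs_zero]; exact hhi0)
  -- the box
  have hbox : ∀ p : Fin d → ℝ, ∑ i, p i ^ 2 ≤ A * (c ^ 2 * s) → ∀ x y : ℝ, |x - e| ≤ s0 →
      s / M ≤ y → y ≤ hi →
      ‖(y : ℂ) * T1 En (fun i j => ‖Am (Bx 0 L) u (ph p) i j‖ ^ 2) ((x : ℂ) + (y : ℂ) * Complex.I) -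
        ((Lc * g0 * (1 + (2 * (∑ i, p i ^ 2) / (c ^ 2 * V) * (g1 / g0 ^ 2)) / (2 * y))⁻¹ : ℝ) :
          ℂ)‖ ≤ δ0 * Lc := by
    intro p hp x y hx hy1 hy2
    have hy0 : 0 < y := lt_of_lt_of_le (by positivity) hy1
    have hloy : lo ≤ y := hloM.trans hy1
    have hy1' : y ≤ 1 := hy2.trans hhi
    have hp0 : 0 ≤ ∑ i, p i ^ 2 := Finset.sum_nonneg fun i _ => sq_nonneg _
    obtain ⟨uu, huu⟩ : ∃ uu, uu = (∑ i, p i ^ 2) / (y * (c ^ 2 * V)) := ⟨_, rfl⟩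
    have huu0 : 0 ≤ uu := by rw [huu]; positivity
    have huuU : uu ≤ U := by
      rw [huu, hU, div_le_div_iff₀ (by positivity) hv]
      have h1 : s ≤ M * y := by
        rw [div_le_iff₀ hM0] at hy1
        linarith
      calc (∑ i, p i ^ 2) * v ≤ A * (c ^ 2 * s) * v := by gcongr
        _ ≤ A * (c ^ 2 * (M * y)) * V := by gcongr
        _ = A * M * (y * (c ^ 2 * V)) := by ring
    obtain ⟨τ, hτ⟩ : ∃ τ, τ = g0 / (1 + uu * (g1 / g0 ^ 2)) := ⟨_, rfl⟩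
    have hτeq : g0 * (1 + (2 * (∑ i, p i ^ 2) / (c ^ 2 * V) * (g1 / g0 ^ 2)) / (2 * y))⁻¹ = τ := by
      rw [hτ, huu]
      have e1 : (2 * (∑ i, p i ^ 2) / (c ^ 2 * V) * (g1 / g0 ^ 2)) / (2 * y) =
          (∑ i, p i ^ 2) / (y * (c ^ 2 * V)) * (g1 / g0 ^ 2) := by
        field_simp
      rw [e1]
      rfl
    have hden : 1 ≤ 1 + uu * (g1 / g0 ^ 2) := by
      have : 0 ≤ uu * (g1 / g0 ^ 2) := by positivity
      linarith
    have hτ0 : 0 ≤ τ := by rw [hτ]; positivity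
    have hτC : τ ≤ C := by
      rw [hτ]
      exact (div_le_self hg00.le hden).trans hl3
    rw [mul_assoc, hτeq]
    have hxhi : |x - e| ≤ hi := hx.trans hs0hi
    have hBx' := hBde x hxhi
    have hsite : ∀ x0 ∈ Bx (0 : Zd d) L \ B, ∃ g, SiteP (Bx 0 L) (fun x => 2 * d + c * ω x) (ph p)
        x0 x y τ (err * (1 + KL)) (C + 1) K' g := by
      intro x0 hx0
      obtain ⟨hx1, hx2, hx3⟩ := hl _ hBx'
      obtain ⟨⟨g, hg⟩, hprf⟩ := hG1 _ (hgood x0 hx0) x hBx' y hloy hy2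
      have hgs := rs_unshift hg
      have hfm := far_mass hgs hy0 hy1' (Bx 0 L) R hR3 (hdeep x0 hx0)
      have hkm := kk_far hgs hy0 hy1' (Bx 0 L) R hR3 (hdeep x0 hx0)
      have hc18 : 0 < c ^ (15 / 8 : ℝ) := by positivity
      have hb0 := hfar y hloy
      refine ⟨fun y => g (y - x0), hgs, ?_, ?_, ?_, ?_⟩
      · rw [phase_eq]
        have hpN : ∑ i, p i ^ 2 ≤ (N : ℝ) ^ 2 * (y * (c ^ 2 * V)) := by
          have h1 : uu ≤ (N : ℝ) ^ 2 := huuU.trans hNN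
          rw [huu, div_le_iff₀ (by positivity)] at h1
          exact h1
        have h1 := hprf g hg p hpN
        simp only [sub_zero] at h1
        obtain ⟨hc1, hc2⟩ := hcont (2 * d + c * Mn - x) (2 * d + c * Mn - e) hBx' hbe0 (by
          rw [sub_sub_sub_cancel_left, abs_sub_comm]
          exact hxhi)
        have h2 : |Tg γ0 γ1 y (c ^ 2 * V) (2 * d + c * Mn - x) p - τ| ≤ err * KL := by
          unfold Tg
          rw [← huu, hτ, hKL]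
          rw [← hg0] at hc1
          rw [← hg1] at hc2
          exact Tg_lip m C U err g0 g1 _ _ uu hm huu0 huuU hl1 hl2 hl3 hx1 hx2 hx3 herr0 hc1 hc2
        have h3 : ‖((y : ℝ) : ℂ) * ∑' z, ph p z * ((‖g z‖ ^ 2 : ℝ) : ℂ) - (τ : ℂ)‖ ≤
            err * (1 + KL) := by
          have h4 := norm_add_le (((y : ℝ) : ℂ) * ∑' z, ph p z * ((‖g z‖ ^ 2 : ℝ) : ℂ) -
            ((Tg γ0 γ1 y (c ^ 2 * V) (2 * d + c * Mn - x) p : ℝ) : ℂ))
            (((Tg γ0 γ1 y (c ^ 2 * V) (2 * d + c * Mn - x) p : ℝ) : ℂ) - (τ : ℂ))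
          rw [sub_add_sub_cancel] at h4
          have h5 : ‖((Tg γ0 γ1 y (c ^ 2 * V) (2 * d + c * Mn - x) p : ℝ) : ℂ) - (τ : ℂ)‖ ≤
              err * KL := by
            rw [← Complex.ofReal_sub, Complex.norm_real]
            exact h2
          linarith
        have hyc : (y : ℂ) ≠ 0 := by exact_mod_cast hy0.ne'
        have h6 : ((y : ℝ) : ℂ) * ∑' z, ph p z * ((‖g z‖ ^ 2 : ℝ) : ℂ) - (τ : ℂ) =
            ((y : ℝ) : ℂ) * (∑' z, ph p z * ((‖g z‖ ^ 2 : ℝ) : ℂ) - ((τ / y : ℝ) : ℂ)) := by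
          push_cast
          field_simp
        rw [h6, norm_mul, Complex.norm_real, Real.norm_of_nonneg hy0.le] at h3
        rw [le_div_iff₀ hy0]
        linarith
      · have h1 := hprf g hg 0 (by simp; positivity)
        have h2 : Tg γ0 γ1 y (c ^ 2 * V) (2 * d + c * Mn - x) (0 : Fin d → ℝ) =
            (γ0 (2 * d + c * Mn - x)).im := by
          unfold Tg
          simp
        have h3 : ∀ y : Zd d, ph (0 : Fin d → ℝ) (y - 0) = 1 := by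
          intro y
          unfold ph
          simp
        rw [h2, tsum_congr fun y => by rw [h3 y, one_mul], ← Complex.ofReal_tsum,
          ← Complex.ofReal_mul, ← Complex.ofReal_sub, Complex.norm_real, Real.norm_eq_abs] at h1
        have h4 : ∑' y, ‖g (y - x0)‖ ^ 2 = ∑' y, ‖g y‖ ^ 2 :=
          (Equiv.subRight x0).tsum_eq fun y => ‖g y‖ ^ 2
        rw [h4, le_div_iff₀ hy0]
        have h5 := (abs_le.1 h1).2
        linarith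
      · refine hkm.trans (hb0.trans (le_of_eq ?_))
        rw [hK'd]
        ring
      · refine hfm.trans ?_
        have h1 : 4 * (d : ℝ) * (y⁻¹) ^ 4 / (R : ℝ) ^ 2 ≤
            16 * (d : ℝ) ^ 3 * (y⁻¹) ^ 4 / (R : ℝ) ^ 2 := by
          have hd1' : (1 : ℝ) ≤ d := by exact_mod_cast hd1
          gcongr
          · norm_num
          · exact le_self_pow₀ hd1' (by norm_num)
        refine h1.trans (hb0.trans ?_)
        rw [hK'd, le_div_iff₀ hy0]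
        have h2 : y * y ≤ 1 := mul_le_one₀ hy1' hy0.le hy1'
        calc 16 * (d : ℝ) ^ 3 * (y * c ^ (15 / 8 : ℝ)) * y =
              16 * (d : ℝ) ^ 3 * c ^ (15 / 8 : ℝ) * (y * y) := by ring
          _ ≤ 16 * (d : ℝ) ^ 3 * c ^ (15 / 8 : ℝ) * 1 := by gcongr
          _ = _ := mul_one _
    have hmain := box_T1 hEF hcard (a := ph p) (fun x => ph_norm p x) B hB (e := x) (τ := τ)
      (τ1 := err * (1 + KL)) (C1 := C + 1) hy0 hδ hK'0 (by positivity) (by positivity) hsite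
    rw [← hLc] at hmain
    refine hmain.trans ?_
    have k1 : K' ≤ δ0 / 8 := by rw [hK'd]; exact n2
    have k2 : (1 + 1 / δ) * K' ≤ δ0 / 8 := by
      have h1 : (1 + 1 / δ) * K' = ((1 + 1 / δ) * (16 * (d : ℝ) ^ 3)) * c ^ (15 / 8 : ℝ) := by
        rw [hK'd]
        ring
      rw [h1]
      exact n3
    have k3 : (B.card : ℝ) * (1 / y + |τ|) ≤ (δ0 / 8 + δ0 / 8) * Lc := by
      have h1 : 1 / y ≤ 1 / c ^ (81 / 40 : ℝ) :=
        one_div_le_one_div_of_le (by positivity) (hlo.trans hloy)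
      have h2 : c ^ 3 = c ^ (39 / 40 : ℝ) * c ^ (81 / 40 : ℝ) := by
        rw [← Real.rpow_add hc, ← Real.rpow_natCast]
        congr 1
        norm_num
      have h3 : c ^ (3 : ℝ) = c ^ 3 := by
        rw [← Real.rpow_natCast]
        norm_num
      rw [h3] at n7
      rw [abs_of_nonneg hτ0]
      have h4 : c ^ 3 * (1 / c ^ (81 / 40 : ℝ)) = c ^ (39 / 40 : ℝ) := by
        rw [h2]
        field_simp
      calc (B.card : ℝ) * (1 / y + τ) ≤ (1 + 2 * d) * c ^ 3 * Lc * (1 / c ^ (81 / 40 : ℝ) + C) := by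
            gcongr
        _ = ((1 + 2 * d) * (c ^ 3 * (1 / c ^ (81 / 40 : ℝ))) + C * (1 + 2 * d) * c ^ 3) * Lc := by
            ring
        _ = ((1 + 2 * d) * c ^ (39 / 40 : ℝ) + C * (1 + 2 * d) * c ^ 3) * Lc := by rw [h4]
        _ ≤ (δ0 / 8 + δ0 / 8) * Lc := by gcongr
    have k4 : (err * (1 + KL) + K' + δ * (C + 1) + (1 + 1 / δ) * K') * Lc ≤
        (δ0 / 8 + δ0 / 8 + δ0 / 8 + δ0 / 8) * Lc := by
      apply mul_le_mul_of_nonneg_right _ hLc0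
      linarith
    have k5 : 0 ≤ δ0 * Lc := by positivity
    linarith
  -- time
  have hall : ∀ p : Fin d → ℝ, ∑ i, p i ^ 2 ≤ A * (c ^ 2 * s) →
      (s0 * Lc * g0 ≤ 3 * Nw En e s0) ∧ ∀ t : ℝ, |t| ≤ T / s →
        ‖Cw En (fun i j => ‖Am (Bx 0 L) u (ph p) i j‖ ^ 2) e s0 t -
          ((Nw En e s0 * Real.exp (-(2 * (∑ i, p i ^ 2) / (c ^ 2 * V) *
            (g1 / g0 ^ 2) * |t|)) : ℝ) : ℂ)‖ ≤ ε * Nw En e s0 := by
    intro p hp
    have hp0 : 0 ≤ ∑ i, p i ^ 2 := Finset.sum_nonneg fun i _ => sq_nonneg _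
    have hβB : 2 * (∑ i, p i ^ 2) / (c ^ 2 * V) * (g1 / g0 ^ 2) ≤ 2 * A / (v * m) * s := by
      have h1 : g1 / g0 ^ 2 ≤ 1 / m := by
        rw [div_le_div_iff₀ (by positivity) hm]
        calc g1 * m ≤ g0 * g0 := by gcongr
          _ = 1 * g0 ^ 2 := by ring
      have h2 : 2 * (∑ i, p i ^ 2) / (c ^ 2 * V) ≤ 2 * A / v * s := by
        rw [div_mul_eq_mul_div, div_le_div_iff₀ (by positivity) hv]
        calc 2 * (∑ i, p i ^ 2) * v ≤ 2 * (A * (c ^ 2 * s)) * V := by gcongr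
          _ = 2 * A * s * (c ^ 2 * V) := by ring
      calc 2 * (∑ i, p i ^ 2) / (c ^ 2 * V) * (g1 / g0 ^ 2) ≤ (2 * A / v * s) * (1 / m) := by
            gcongr
        _ = 2 * A / (v * m) * s := by field_simp
    refine hdet ι En (fun i j => ‖Am (Bx 0 L) u (ph p) i j‖ ^ 2) e s s0
      (2 * (∑ i, p i ^ 2) / (c ^ 2 * V) * (g1 / g0 ^ 2)) g0 Lc (fun i j => sq_nonneg _)
      (fun i => Am_parseval2 hEF hcard _ (fun x => ph_norm p x) i)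
      (fun j => Am_parseval1 hEF hcard _ (fun x => ph_norm p x) j) hs0 hMs (by positivity) hβB hmg0
      hLc0 (fun x y hx hy1 hy2 => hbox p hp x y hx hy1 (by linarith)) (fun x y hx hy1 hy2 => ?_)
    have h1 := hbox 0 (by simp; positivity) x y hx hy1 (by linarith)
    have h2 : (ph (0 : Fin d → ℝ)) = fun _ : Zd d => (1 : ℂ) := by
      funext z
      unfold ph
      simp
    rw [h2, T1_one hEF] at h1
    have h3 : Lc * g0 * (1 + (2 * (∑ i : Fin d, ((0 : Fin d → ℝ) i) ^ 2) / (c ^ 2 * V) *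
        (g1 / g0 ^ 2)) / (2 * y))⁻¹ = Lc * g0 := by
      simp
    rw [h3, ← Complex.ofReal_sub, Complex.norm_real] at h1
    exact h1
  refine ⟨?_, fun p hp => (hall p hp).2⟩
  have h1 := (hall 0 (by simp; positivity)).1
  rw [← hLc]
  calc g0 * s0 * Lc = s0 * Lc * g0 := by ring
    _ ≤ _ := h1

end Pool.Agent.X133.QD
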