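import Mathlib

/-! The characteristic function of a measure from its Stieltjes transform on the imaginary axis. -/

set_option autoImplicit false

open scoped BigOperators Topology
open MeasureTheory Filter Set

namespace Pool.Agent.X133.QD

/-- `1 - e^{-v}` -/
theorem one_sub_exp (v : ℂ) (hv : 0 ≤ v.re) : ‖1 - Complex.exp (-v)‖ ≤ 2 * ‖v‖ := by
  rcases le_or_gt ‖v‖ 1 with h | h
  · have h1 := Complex.norm_exp_sub_one_le (x := -v) (by rwa [norm_neg])
    rw [norm_neg] at h1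
    rw [norm_sub_rev]
    exact h1
  · have h1 : ‖Complex.exp (-v)‖ ≤ 1 := by
      rw [Complex.norm_exp, Real.exp_le_one_iff, Complex.neg_re]
      linarith
    refine (norm_sub_le _ _).trans ?_
    rw [norm_one]
    linarith

theorem one_add_norm (v : ℂ) (hv : 0 ≤ v.re) : 1 ≤ ‖1 + v‖ := by
  have h1 := Complex.abs_re_le_norm (1 + v)
  rw [Complex.add_re, Complex.one_re, abs_of_nonneg (by linarith)] at h1
  linarith

theorem fac_le (v : ℂ) (hv : 0 ≤ v.re) : ‖(1 + v)⁻¹‖ ≤ 1 := by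
  rw [norm_inv]
  exact inv_le_one_of_one_le₀ (one_add_norm v hv)

/-- one factor -/
theorem one_fac (v : ℂ) (hv : 0 ≤ v.re) : ‖Complex.exp (-v) - (1 + v)⁻¹‖ ≤ 2 * ‖v‖ ^ 2 := by
  have hn := one_add_norm v hv
  have hne : (1 + v) ≠ 0 := by
    intro h
    rw [h, norm_zero] at hn
    linarith
  rcases le_or_gt ‖v‖ 1 with h | h
  · have h1 := Complex.norm_exp_sub_one_sub_id_le (x := -v) (by rwa [norm_neg])
    rw [norm_neg] at h1
    have e1 : Complex.exp (-v) - (1 + v)⁻¹ = (Complex.exp (-v) - 1 - -v) - v ^ 2 * (1 + v)⁻¹ := by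
      field_simp
      ring
    rw [e1]
    refine (norm_sub_le _ _).trans ?_
    rw [norm_mul, norm_pow]
    have h2 := fac_le v hv
    have h3 : ‖v‖ ^ 2 * ‖(1 + v)⁻¹‖ ≤ ‖v‖ ^ 2 * 1 := mul_le_mul_of_nonneg_left h2 (sq_nonneg _)
    linarith
  · have h1 : ‖Complex.exp (-v)‖ ≤ 1 := by
      rw [Complex.norm_exp, Real.exp_le_one_iff, Complex.neg_re]
      linarith
    have h2 := fac_le v hv
    refine (norm_sub_le _ _).trans ?_
    have h3 : 1 ≤ ‖v‖ ^ 2 := one_le_pow₀ h.le
    linarith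

/-- products of contractions -/
theorem prod_diff {ι : Type*} (S : Finset ι) (a b : ι → ℂ) (ha : ∀ i ∈ S, ‖a i‖ ≤ 1)
    (hb : ∀ i ∈ S, ‖b i‖ ≤ 1) : ‖∏ i ∈ S, a i - ∏ i ∈ S, b i‖ ≤ ∑ i ∈ S, ‖a i - b i‖ := by
  classical
  induction S using Finset.induction_on with
  | empty => simp
  | insert i S hi ih =>
    rw [Finset.prod_insert hi, Finset.prod_insert hi, Finset.sum_insert hi]
    have h1 := ih (fun j hj => ha j (Finset.mem_insert_of_mem hj))
      (fun j hj => hb j (Finset.mem_insert_of_mem hj))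
    have h2 : ‖∏ j ∈ S, b j‖ ≤ 1 := by
      rw [norm_prod]
      exact Finset.prod_le_one (fun j _ => norm_nonneg _)
        (fun j hj => hb j (Finset.mem_insert_of_mem hj))
    have e1 : a i * ∏ j ∈ S, a j - b i * ∏ j ∈ S, b j =
        a i * (∏ j ∈ S, a j - ∏ j ∈ S, b j) + (a i - b i) * ∏ j ∈ S, b j := by ring
    rw [e1]
    refine (norm_add_le _ _).trans ?_
    rw [norm_mul, norm_mul]
    have h3 : ‖a i‖ * ‖∏ j ∈ S, a j - ∏ j ∈ S, b j‖ ≤ 1 * ‖∏ j ∈ S, a j - ∏ j ∈ S, b j‖ :=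
      mul_le_mul_of_nonneg_right (ha i (Finset.mem_insert_self _ _)) (norm_nonneg _)
    have h4 : ‖a i - b i‖ * ‖∏ j ∈ S, b j‖ ≤ ‖a i - b i‖ * 1 :=
      mul_le_mul_of_nonneg_left h2 (norm_nonneg _)
    linarith

/-- the nodes -/
noncomputable def rr (n : ℕ) (j : ℕ) : ℝ := n + j / n

theorem rr_ge (n j : ℕ) : (n : ℝ) ≤ rr n j := by
  unfold rr
  have : (0 : ℝ) ≤ (j : ℝ) / n := by positivity
  linarith

theorem rr_le (n j : ℕ) (hn : 0 < n) (hj : j < n) : rr n j ≤ n + 1 := by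
  unfold rr
  have h0 : (0 : ℝ) < n := by exact_mod_cast hn
  have : (j : ℝ) / n ≤ 1 := by
    rw [div_le_one h0]
    exact_mod_cast hj.le
  linarith

theorem rr_inj (n : ℕ) (hn : 0 < n) : Function.Injective (rr n) := by
  intro i j h
  unfold rr at h
  have h0 : (0 : ℝ) < n := by exact_mod_cast hn
  have h1 : (i : ℝ) / n = j / n := by linarith
  rw [div_left_inj' h0.ne'] at h1
  exact_mod_cast h1

/-- **the approximation** -/
theorem exp_prod (n : ℕ) (hn : 0 < n) (v : ℂ) (hv : 0 ≤ v.re) :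
    ‖Complex.exp (-v) - ∏ j ∈ Finset.range n, (1 + v / (rr n j : ℂ))⁻¹‖ ≤
      (2 * ‖v‖ ^ 2 + 2 * ‖v‖) / n := by
  have h0 : (0 : ℝ) < n := by exact_mod_cast hn
  have hr : ∀ j, 0 < rr n j := fun j => h0.trans_le (rr_ge n j)
  have hre : ∀ j, 0 ≤ (v / (rr n j : ℂ)).re := by
    intro j
    rw [Complex.div_ofReal_re]
    exact div_nonneg hv (hr j).le
  have hnv : ∀ j, ‖v / (rr n j : ℂ)‖ ≤ ‖v‖ / n := by
    intro j
    rw [norm_div, Complex.norm_real, Real.norm_of_nonneg (hr j).le]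
    exact div_le_div_of_nonneg_left (norm_nonneg _) h0 (rr_ge n j)
  have h1 : ‖∏ j ∈ Finset.range n, Complex.exp (-(v / (rr n j : ℂ))) -
      ∏ j ∈ Finset.range n, (1 + v / (rr n j : ℂ))⁻¹‖ ≤ 2 * ‖v‖ ^ 2 / n := by
    refine (prod_diff _ _ _ (fun j _ => ?_) (fun j _ => fac_le _ (hre j))).trans ?_
    · rw [Complex.norm_exp, Real.exp_le_one_iff, Complex.neg_re]
      linarith [hre j]
    · refine (Finset.sum_le_sum (g := fun _ => 2 * (‖v‖ / n) ^ 2) fun j _ => ?_).trans ?_
      · refine (one_fac _ (hre j)).trans ?_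
        have := hnv j
        gcongr
      · rw [Finset.sum_const, Finset.card_range, nsmul_eq_mul]
        apply le_of_eq
        field_simp
  obtain ⟨θ, hθ⟩ : ∃ θ : ℝ, θ = 1 - ∑ j ∈ Finset.range n, (rr n j)⁻¹ := ⟨_, rfl⟩
  have hθ0 : 0 ≤ θ := by
    have h2 : ∑ j ∈ Finset.range n, (rr n j)⁻¹ ≤ ∑ j ∈ Finset.range n, (n : ℝ)⁻¹ :=
      Finset.sum_le_sum fun j _ => inv_anti₀ h0 (rr_ge n j)
    rw [Finset.sum_const, Finset.card_range, nsmul_eq_mul, mul_inv_cancel₀ h0.ne'] at h2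
    rw [hθ]
    linarith
  have hθ1 : θ ≤ 1 / n := by
    have h2 : ∑ j ∈ Finset.range n, ((n : ℝ) + 1)⁻¹ ≤ ∑ j ∈ Finset.range n, (rr n j)⁻¹ :=
      Finset.sum_le_sum fun j hj => inv_anti₀ (hr j) (rr_le n j hn (Finset.mem_range.1 hj))
    rw [Finset.sum_const, Finset.card_range, nsmul_eq_mul] at h2
    have h3 : 1 - (n : ℝ) * ((n : ℝ) + 1)⁻¹ = 1 / (n + 1) := by
      field_simp
      ring
    have h4 : 1 / ((n : ℝ) + 1) ≤ 1 / n := by
      apply one_div_le_one_div_of_le h0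
      linarith
    rw [hθ]
    linarith
  have h2 : ∏ j ∈ Finset.range n, Complex.exp (-(v / (rr n j : ℂ))) =
      Complex.exp (-v) * Complex.exp (v * (θ : ℂ)) := by
    rw [← Complex.exp_sum, ← Complex.exp_add]
    congr 1
    rw [hθ]
    push_cast
    rw [Finset.sum_neg_distrib]
    have h3 : ∑ j ∈ Finset.range n, v / (rr n j : ℂ) = v * ∑ j ∈ Finset.range n, ((rr n j : ℂ))⁻¹ := by
      rw [Finset.mul_sum]
      rfl
    rw [h3]
    ring
  have h4 : ‖Complex.exp (-v) - ∏ j ∈ Finset.range n, Complex.exp (-(v / (rr n j : ℂ)))‖ ≤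
      2 * ‖v‖ / n := by
    have hP : ‖∏ j ∈ Finset.range n, Complex.exp (-(v / (rr n j : ℂ)))‖ ≤ 1 := by
      rw [norm_prod]
      refine Finset.prod_le_one (fun j _ => norm_nonneg _) (fun j _ => ?_)
      rw [Complex.norm_exp, Real.exp_le_one_iff, Complex.neg_re]
      linarith [hre j]
    have h5 : Complex.exp (-v) - ∏ j ∈ Finset.range n, Complex.exp (-(v / (rr n j : ℂ))) =
        -((∏ j ∈ Finset.range n, Complex.exp (-(v / (rr n j : ℂ)))) *
          (1 - Complex.exp (-(v * (θ : ℂ))))) := by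
      rw [h2]
      have h6 : Complex.exp (v * (θ : ℂ)) * Complex.exp (-(v * (θ : ℂ))) = 1 := by
        rw [← Complex.exp_add, add_neg_cancel, Complex.exp_zero]
      linear_combination (-Complex.exp (-v)) * h6
    rw [h5, norm_neg, norm_mul]
    have h7 := one_sub_exp (v * (θ : ℂ)) (by
      rw [Complex.re_mul_ofReal]
      exact mul_nonneg hv hθ0)
    rw [norm_mul, Complex.norm_real, Real.norm_of_nonneg hθ0] at h7
    calc ‖∏ j ∈ Finset.range n, Complex.exp (-(v / (rr n j : ℂ)))‖ *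
          ‖1 - Complex.exp (-(v * (θ : ℂ)))‖ ≤ 1 * (2 * (‖v‖ * θ)) := by gcongr
      _ ≤ 1 * (2 * (‖v‖ * (1 / n))) := by gcongr
      _ = _ := by ring
  have h8 := norm_add_le (Complex.exp (-v) - ∏ j ∈ Finset.range n, Complex.exp (-(v / (rr n j : ℂ))))
    (∏ j ∈ Finset.range n, Complex.exp (-(v / (rr n j : ℂ))) -
      ∏ j ∈ Finset.range n, (1 + v / (rr n j : ℂ))⁻¹)
  rw [sub_add_sub_cancel] at h8
  rw [add_div]
  linarith

/-- partial fractions -/
theorem pf (r : ℕ → ℝ) (hr : ∀ j, 0 < r j) (hinj : Function.Injective r) (n : ℕ) :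
    ∃ c : ℕ → ℝ, ∀ v : ℂ, 0 ≤ v.re → ∏ j ∈ Finset.range (n + 1), (1 + v / (r j : ℂ))⁻¹ =
      ∑ j ∈ Finset.range (n + 1), (c j : ℂ) * (1 + v / (r j : ℂ))⁻¹ := by
  have hre : ∀ v : ℂ, 0 ≤ v.re → ∀ j, (1 + v / (r j : ℂ)) ≠ 0 := by
    intro v hv j h
    have h1 := one_add_norm (v / (r j : ℂ)) (by
      rw [Complex.div_ofReal_re]
      exact div_nonneg hv (hr j).le)
    rw [h, norm_zero] at h1
    linarith
  induction n with
  | zero =>
    refine ⟨fun _ => 1, fun v _ => ?_⟩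
    simp
  | succ n ih =>
    obtain ⟨c, hc⟩ := ih
    -- `(1 + v/a)⁻¹ (1 + v/b)⁻¹ = (b/(b-a)) (1+v/a)⁻¹ - (a/(b-a)) (1+v/b)⁻¹`
    refine ⟨fun j => if j = n + 1 then -∑ i ∈ Finset.range (n + 1), c i * (r i / (r (n + 1) - r i))
      else c j * (r (n + 1) / (r (n + 1) - r j)), fun v hv => ?_⟩
    rw [Finset.prod_range_succ, hc v hv, Finset.sum_range_succ _ (n + 1)]
    beta_reduce
    rw [if_pos rfl, Finset.sum_mul]
    have h1 : ∀ j ∈ Finset.range (n + 1), (c j : ℂ) * (1 + v / (r j : ℂ))⁻¹ *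
        (1 + v / (r (n + 1) : ℂ))⁻¹ = ((c j * (r (n + 1) / (r (n + 1) - r j)) : ℝ) : ℂ) *
          (1 + v / (r j : ℂ))⁻¹ - ((c j * (r j / (r (n + 1) - r j)) : ℝ) : ℂ) *
          (1 + v / (r (n + 1) : ℂ))⁻¹ := by
      intro j hj
      have hj' : j ≠ n + 1 := by
        have := Finset.mem_range.1 hj
        omega
      have hd : r (n + 1) - r j ≠ 0 := by
        rw [sub_ne_zero]
        exact fun h => hj' (hinj h).symm
      have hdc : ((r (n + 1) : ℂ) - (r j : ℂ)) ≠ 0 := by exact_mod_cast hd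
      have k1 := hre v hv j
      have k2 := hre v hv (n + 1)
      have ha : (r j : ℂ) ≠ 0 := by exact_mod_cast (hr j).ne'
      have hb : (r (n + 1) : ℂ) ≠ 0 := by exact_mod_cast (hr (n + 1)).ne'
      have k1' : (r j : ℂ) + v ≠ 0 := by
        intro h
        apply k1
        field_simp
        rw [mul_zero]
        exact h
      have k2' : (r (n + 1) : ℂ) + v ≠ 0 := by
        intro h
        apply k2
        field_simp
        rw [mul_zero]
        exact h
      have e1 : (1 + v / (r j : ℂ))⁻¹ = (r j : ℂ) / ((r j : ℂ) + v) := by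
        field_simp
      have e2 : (1 + v / (r (n + 1) : ℂ))⁻¹ = (r (n + 1) : ℂ) / ((r (n + 1) : ℂ) + v) := by
        field_simp
      rw [e1, e2]
      push_cast
      field_simp
      ring
    rw [Finset.sum_congr rfl h1, Finset.sum_sub_distrib, ← Finset.sum_mul]
    have h2 : ∑ j ∈ Finset.range (n + 1), (((if j = n + 1 then
        -∑ i ∈ Finset.range (n + 1), c i * (r i / (r (n + 1) - r i))
        else c j * (r (n + 1) / (r (n + 1) - r j)) : ℝ)) : ℂ) * (1 + v / (r j : ℂ))⁻¹ =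
        ∑ j ∈ Finset.range (n + 1), ((c j * (r (n + 1) / (r (n + 1) - r j)) : ℝ) : ℂ) *
          (1 + v / (r j : ℂ))⁻¹ := by
      refine Finset.sum_congr rfl fun j hj => ?_
      rw [if_neg]
      have := Finset.mem_range.1 hj
      omega
    rw [h2]
    push_cast
    ring

section time

variable {ι : Type*} [Fintype ι]

/-- the mass away from zero -/
theorem tail_le (W ω : ι → ℝ) (N β δ' a : ℝ) (hW : ∀ i, 0 ≤ W i) (hN : ∑ i, W i = N) (hβ : 0 ≤ β)
    (ha : 0 < a)
    (h : ‖∑ i, (W i : ℂ) * (1 + -(Complex.I * (ω i : ℂ)) / (a : ℂ))⁻¹ -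
      (N : ℂ) * (1 + (β : ℂ) / (a : ℂ))⁻¹‖ ≤ δ' * N) :
    ∑ i, (if a < |ω i| then W i else 0) ≤ 2 * (β / a + δ') * N := by
  have hN0 : 0 ≤ N := by rw [← hN]; exact Finset.sum_nonneg fun i _ => hW i
  have hre : ∀ i, ((1 + -(Complex.I * (ω i : ℂ)) / (a : ℂ))⁻¹).re = a ^ 2 / (a ^ 2 + ω i ^ 2) := by
    intro i
    have hac : (a : ℂ) ≠ 0 := by exact_mod_cast ha.ne'
    have hq : ((a : ℂ) ^ 2 + (ω i : ℂ) ^ 2) ≠ 0 := by
      have : a ^ 2 + ω i ^ 2 ≠ 0 := by positivity
      exact_mod_cast this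
    have e1 : (1 + -(Complex.I * (ω i : ℂ)) / (a : ℂ))⁻¹ = ((a ^ 2 / (a ^ 2 + ω i ^ 2) : ℝ) : ℂ) +
        ((a * ω i / (a ^ 2 + ω i ^ 2) : ℝ) : ℂ) * Complex.I := by
      apply inv_eq_of_mul_eq_one_right
      push_cast
      field_simp
      linear_combination (-(ω i : ℂ) ^ 2) * Complex.I_sq
    rw [e1, Complex.add_re, Complex.ofReal_re, Complex.re_ofReal_mul, Complex.I_re, mul_zero,
      add_zero]
  have h1 := (Complex.abs_re_le_norm _).trans h
  have h2 := (abs_le.1 h1).1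
  have h3 : (∑ i, (W i : ℂ) * (1 + -(Complex.I * (ω i : ℂ)) / (a : ℂ))⁻¹ -
      (N : ℂ) * (1 + (β : ℂ) / (a : ℂ))⁻¹).re =
      ∑ i, W i * (a ^ 2 / (a ^ 2 + ω i ^ 2)) - N * (1 + β / a)⁻¹ := by
    rw [Complex.sub_re, Complex.re_sum]
    congr 1
    · refine Finset.sum_congr rfl fun i _ => ?_
      rw [Complex.re_ofReal_mul, hre]
    · rw [Complex.re_ofReal_mul]
      congr 1
      have e1 : (1 + (β : ℂ) / (a : ℂ))⁻¹ = (((1 + β / a)⁻¹ : ℝ) : ℂ) := by push_cast; rfl
      rw [e1, Complex.ofReal_re]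
  rw [h3] at h2
  have h4 : ∑ i, (if a < |ω i| then W i else 0) ≤
      2 * ∑ i, (W i - W i * (a ^ 2 / (a ^ 2 + ω i ^ 2))) := by
    rw [Finset.mul_sum]
    refine Finset.sum_le_sum fun i _ => ?_
    have h5 : a ^ 2 / (a ^ 2 + ω i ^ 2) ≤ 1 := by
      rw [div_le_one (by positivity)]
      nlinarith [sq_nonneg (ω i)]
    split_ifs with h6
    · have h7 : a ^ 2 / (a ^ 2 + ω i ^ 2) ≤ 1 / 2 := by
        rw [div_le_iff₀ (by positivity)]
        have h8 : a ^ 2 ≤ ω i ^ 2 := by
          rw [← sq_abs (ω i)]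
          exact pow_le_pow_left₀ ha.le h6.le 2
        linarith
      have := mul_le_mul_of_nonneg_left h7 (hW i)
      linarith
    · have := mul_le_mul_of_nonneg_left h5 (hW i)
      linarith
  rw [Finset.sum_sub_distrib, hN] at h4
  have h9 : 1 - (1 + β / a)⁻¹ ≤ β / a := by
    have h10 : 0 ≤ β / a := by positivity
    have h11 : 1 - (1 + β / a)⁻¹ = (β / a) / (1 + β / a) := by
      field_simp
      ring
    rw [h11]
    exact div_le_self h10 (by linarith)
  have h12 := mul_le_mul_of_nonneg_right h9 hN0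
  nlinarith

/-- splitting -/
theorem split_le (W ω : ι → ℝ) (N β δ' a E1 : ℝ) (hW : ∀ i, 0 ≤ W i) (hN : ∑ i, W i = N)
    (hE : 0 ≤ E1) (g : ι → ℂ) (hg2 : ∀ i, ‖g i‖ ≤ 2) (hg : ∀ i, |ω i| ≤ a → ‖g i‖ ≤ E1)
    (ht : ∑ i, (if a < |ω i| then W i else 0) ≤ 2 * (β / a + δ') * N) :
    ‖∑ i, (W i : ℂ) * g i‖ ≤ (E1 + 4 * (β / a + δ')) * N := by
  have h1 : ∀ i, ‖(W i : ℂ) * g i‖ ≤ W i * E1 + 2 * (if a < |ω i| then W i else 0) := by
    intro i
    rw [norm_mul, Complex.norm_real, Real.norm_of_nonneg (hW i)]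
    split_ifs with h
    · have h2 := mul_le_mul_of_nonneg_left (hg2 i) (hW i)
      have h3 := mul_nonneg (hW i) hE
      linarith
    · have h2 := mul_le_mul_of_nonneg_left (hg i (not_lt.1 h)) (hW i)
      linarith
  refine (norm_sum_le _ _).trans ((Finset.sum_le_sum fun i _ => h1 i).trans ?_)
  rw [Finset.sum_add_distrib, ← Finset.sum_mul, hN, ← Finset.mul_sum]
  linarith

theorem exp_norm_one (w t : ℝ) : ‖Complex.exp (Complex.I * ((w * t : ℝ) : ℂ))‖ = 1 := by
  rw [mul_comm]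
  exact Complex.norm_exp_ofReal_mul_I _

/-- **the characteristic function from the transform on the imaginary axis** -/
theorem time_main (ε T B : ℝ) (hε : 0 < ε) (hT : 0 < T) (hB : 0 ≤ B) :
    ∃ M δ' : ℝ, 1 ≤ M ∧ 0 < δ' ∧ ∀ (ι : Type) [Fintype ι] (W ω : ι → ℝ) (N s β : ℝ),
      (∀ i, 0 ≤ W i) → ∑ i, W i = N → 0 < s → 0 ≤ β → β ≤ B * s →
      (∀ a : ℝ, s / M ≤ a → a ≤ M * s →
        ‖∑ i, (W i : ℂ) * (1 + -(Complex.I * (ω i : ℂ)) / (a : ℂ))⁻¹ -
          (N : ℂ) * (1 + (β : ℂ) / (a : ℂ))⁻¹‖ ≤ δ' * N) →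
      ∀ t : ℝ, |t| ≤ T / s →
        ‖∑ i, (W i : ℂ) * Complex.exp (Complex.I * ((ω i * t : ℝ) : ℂ)) -
          (N : ℂ) * Complex.exp (((-(β * |t|) : ℝ) : ℂ))‖ ≤ ε * N := by
  obtain ⟨a0, ha0⟩ : ∃ a0, a0 = 16 * B / ε + 1 := ⟨_, rfl⟩
  have ha00 : 1 ≤ a0 := by
    rw [ha0]
    have : 0 ≤ 16 * B / ε := by positivity
    linarith
  have ha0B : 4 * (B / a0) ≤ ε / 4 := by
    rw [mul_div_assoc', div_le_iff₀ (by linarith)]
    have h1 : ε / 4 * a0 = 4 * B + ε / 4 := by
      rw [ha0]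
      field_simp
      ring
    rw [h1]
    linarith
  obtain ⟨θ, hθ⟩ : ∃ θ, θ = ε / (4 * (a0 + B)) := ⟨_, rfl⟩
  have hθ0 : 0 < θ := by rw [hθ]; positivity
  have hθ1 : (a0 + B) * θ = ε / 4 := by
    rw [hθ]
    field_simp
  obtain ⟨X, hX⟩ : ∃ X, X = (a0 + B) * T := ⟨_, rfl⟩
  have hX0 : 0 < X := by rw [hX]; positivity
  obtain ⟨n, hn⟩ := exists_nat_ge (8 * (2 * X ^ 2 + 2 * X) / ε + 1)
  have hn1 : (1 : ℝ) ≤ n := by
    have : 0 ≤ 8 * (2 * X ^ 2 + 2 * X) / ε := by positivity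
    linarith
  have hnpos : 0 < n := by
    have : (0 : ℝ) < n := by linarith
    exact_mod_cast this
  have hn0 : (0 : ℝ) < n := by exact_mod_cast hnpos
  have hnX : (2 * X ^ 2 + 2 * X) / n ≤ ε / 8 := by
    rw [div_le_iff₀ hn0]
    have h1 : 8 * (2 * X ^ 2 + 2 * X) / ε ≤ n := by linarith
    rw [div_le_iff₀ hε] at h1
    linarith
  have hrpos : ∀ j, 0 < rr n j := fun j => hn0.trans_le (rr_ge n j)
  obtain ⟨c, hc⟩ := pf (rr n) hrpos (rr_inj n hnpos) (n - 1)
  have hn11 : n - 1 + 1 = n := by omega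
  rw [hn11] at hc
  obtain ⟨Sc, hSc⟩ : ∃ Sc, Sc = ∑ j ∈ Finset.range n, |c j| := ⟨_, rfl⟩
  have hSc0 : 0 ≤ Sc := by rw [hSc]; exact Finset.sum_nonneg fun j _ => abs_nonneg _
  obtain ⟨δ', hδ⟩ : ∃ δ', δ' = min (ε / 64) (ε / (8 * (Sc + 1))) := ⟨_, rfl⟩
  have hδ0 : 0 < δ' := by rw [hδ]; exact lt_min (by positivity) (by positivity)
  have hδ1 : 4 * δ' ≤ ε / 16 := by
    have : δ' ≤ ε / 64 := by rw [hδ]; exact min_le_left _ _
    linarith
  have hδ2 : Sc * δ' ≤ ε / 8 := by
    have h1 : δ' ≤ ε / (8 * (Sc + 1)) := by rw [hδ]; exact min_le_right _ _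
    rw [le_div_iff₀ (by positivity)] at h1
    nlinarith
  obtain ⟨M, hM⟩ : ∃ M, M = max a0 (max T ((n + 1) / θ)) := ⟨_, rfl⟩
  have hM1 : a0 ≤ M := by rw [hM]; exact le_max_left _ _
  have hM2 : T ≤ M := by rw [hM]; exact (le_max_left _ _).trans (le_max_right _ _)
  have hM3 : (n + 1) / θ ≤ M := by rw [hM]; exact (le_max_right _ _).trans (le_max_right _ _)
  refine ⟨M, δ', ha00.trans hM1, hδ0, ?_⟩
  intro ι _ W ω N s β hW hN hs hβ hβB hH
  have hN0 : 0 ≤ N := by rw [← hN]; exact Finset.sum_nonneg fun i _ => hW i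
  have hM0 : 0 < M := by linarith
  -- the tail
  have htail : ∑ i, (if a0 * s < |ω i| then W i else 0) ≤ 2 * (β / (a0 * s) + δ') * N := by
    refine tail_le W ω N β δ' (a0 * s) hW hN hβ (by positivity) ?_
    refine hH (a0 * s) ?_ ?_
    · calc s / M ≤ s := div_le_self hs.le (ha00.trans hM1)
        _ ≤ a0 * s := le_mul_of_one_le_left hs.le ha00
    · gcongr
  have hβa : 4 * (β / (a0 * s) + δ') ≤ ε / 4 + ε / 16 := by
    have h1 : β / (a0 * s) ≤ B / a0 := by
      rw [div_le_div_iff₀ (by positivity) (by linarith)]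
      calc β * a0 ≤ B * s * a0 := by gcongr
        _ = B * (a0 * s) := by ring
    linarith
  -- nonnegative times
  have hpos : ∀ t : ℝ, 0 ≤ t → t ≤ T / s →
      ‖∑ i, (W i : ℂ) * Complex.exp (Complex.I * ((ω i * t : ℝ) : ℂ)) -
        (N : ℂ) * Complex.exp (((-(β * t) : ℝ) : ℂ))‖ ≤ ε * N := by
    intro t ht0 ht
    have hβt0 : 0 ≤ β * t := mul_nonneg hβ ht0
    rcases le_or_gt t (θ / s) with h1 | h1
    · -- small times
      have h2 := split_le W ω N β δ' (a0 * s) (a0 * s * t) hW hN (by positivity)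
        (fun i => Complex.exp (Complex.I * ((ω i * t : ℝ) : ℂ)) - 1) (fun i => by
          refine (norm_sub_le _ _).trans ?_
          rw [exp_norm_one, norm_one]
          norm_num) (fun i hi => by
          refine (Real.norm_exp_I_mul_ofReal_sub_one_le (x := ω i * t)).trans ?_
          rw [Real.norm_eq_abs, abs_mul, abs_of_nonneg ht0]
          gcongr) htail
      have h3 : ‖(N : ℂ) - (N : ℂ) * Complex.exp (((-(β * t) : ℝ) : ℂ))‖ ≤ (B * θ) * N := by
        have e1 : (N : ℂ) - (N : ℂ) * Complex.exp (((-(β * t) : ℝ) : ℂ)) =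
            ((N * (1 - Real.exp (-(β * t))) : ℝ) : ℂ) := by
          push_cast
          ring
        have h4 : 1 - Real.exp (-(β * t)) ≤ β * t := by
          have := Real.add_one_le_exp (-(β * t))
          linarith
        have h5 : 0 ≤ 1 - Real.exp (-(β * t)) := by
          have : Real.exp (-(β * t)) ≤ 1 := Real.exp_le_one_iff.2 (by linarith)
          linarith
        rw [e1, Complex.norm_real, Real.norm_of_nonneg (mul_nonneg hN0 h5), mul_comm]
        apply mul_le_mul_of_nonneg_right _ hN0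
        refine h4.trans ?_
        calc β * t ≤ B * s * (θ / s) := by gcongr
          _ = B * θ := by field_simp
      have h6 : a0 * s * t ≤ a0 * θ := by
        calc a0 * s * t ≤ a0 * s * (θ / s) := by gcongr
          _ = a0 * θ := by field_simp
      have e2 : ∑ i, (W i : ℂ) * Complex.exp (Complex.I * ((ω i * t : ℝ) : ℂ)) -
          (N : ℂ) * Complex.exp (((-(β * t) : ℝ) : ℂ)) =
          ∑ i, (W i : ℂ) * (Complex.exp (Complex.I * ((ω i * t : ℝ) : ℂ)) - 1) +
            ((N : ℂ) - (N : ℂ) * Complex.exp (((-(β * t) : ℝ) : ℂ))) := by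
        simp only [mul_sub, mul_one, Finset.sum_sub_distrib]
        rw [← hN]
        push_cast
        ring
      rw [e2]
      refine (norm_add_le _ _).trans ((add_le_add h2 h3).trans ?_)
      rw [← add_mul]
      apply mul_le_mul_of_nonneg_right _ hN0
      have h7 : a0 * θ + B * θ = ε / 4 := by rw [← add_mul]; exact hθ1
      linarith
    · -- large times
      have hθs : 0 < θ / s := by positivity
      have htpos : 0 < t := hθs.trans h1
      have htT : s * t ≤ T := by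
        rw [le_div_iff₀ hs] at ht
        linarith
      have htθ : θ ≤ s * t := by
        rw [div_lt_iff₀ hs] at h1
        linarith
      obtain ⟨P, hP⟩ : ∃ P : ℂ → ℂ, P = fun v => ∏ j ∈ Finset.range n, (1 + v / (rr n j : ℂ))⁻¹ :=
        ⟨_, rfl⟩
      have hPv : ∀ v, P v = ∏ j ∈ Finset.range n, (1 + v / (rr n j : ℂ))⁻¹ := fun v => by rw [hP]
      have hPn : ∀ v : ℂ, 0 ≤ v.re → ‖P v‖ ≤ 1 := by
        intro v hv
        rw [hPv, norm_prod]
        refine Finset.prod_le_one (fun j _ => norm_nonneg _) (fun j _ => fac_le _ ?_)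
        rw [Complex.div_ofReal_re]
        exact div_nonneg hv (hrpos j).le
      have hvre : ∀ i, (-(Complex.I * ((ω i * t : ℝ) : ℂ))).re = 0 := by
        intro i
        simp
      have h2 := split_le W ω N β δ' (a0 * s) (ε / 8) hW hN (by positivity)
        (fun i => Complex.exp (Complex.I * ((ω i * t : ℝ) : ℂ)) -
          P (-(Complex.I * ((ω i * t : ℝ) : ℂ)))) (fun i => by
          refine (norm_sub_le _ _).trans ?_
          rw [exp_norm_one]
          have := hPn (-(Complex.I * ((ω i * t : ℝ) : ℂ))) (hvre i).ge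
          linarith) (fun i hi => by
          have h3 := exp_prod n hnpos (-(Complex.I * ((ω i * t : ℝ) : ℂ))) (hvre i).ge
          rw [neg_neg, ← hPv, norm_neg, norm_mul, Complex.norm_I, one_mul, Complex.norm_real,
            Real.norm_eq_abs] at h3
          refine h3.trans (le_trans ?_ hnX)
          have h4 : |ω i * t| ≤ X := by
            rw [abs_mul, abs_of_pos htpos, hX]
            calc |ω i| * t ≤ a0 * s * t := by gcongr
              _ = a0 * (s * t) := by ring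
              _ ≤ a0 * T := by gcongr
              _ ≤ (a0 + B) * T := by
                apply mul_le_mul_of_nonneg_right _ hT.le
                linarith
          gcongr) htail
      -- the product
      have h5 : ‖∑ i, (W i : ℂ) * P (-(Complex.I * ((ω i * t : ℝ) : ℂ))) -
          (N : ℂ) * P ((β * t : ℝ) : ℂ)‖ ≤ (ε / 8) * N := by
        have h6 : ∑ i, (W i : ℂ) * P (-(Complex.I * ((ω i * t : ℝ) : ℂ))) -
            (N : ℂ) * P ((β * t : ℝ) : ℂ) = ∑ j ∈ Finset.range n, (c j : ℂ) *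
            (∑ i, (W i : ℂ) * (1 + -(Complex.I * (ω i : ℂ)) / ((rr n j / t : ℝ) : ℂ))⁻¹ -
              (N : ℂ) * (1 + (β : ℂ) / ((rr n j / t : ℝ) : ℂ))⁻¹) := by
          have htc : (t : ℂ) ≠ 0 := by exact_mod_cast htpos.ne'
          have h7 : ∀ i, P (-(Complex.I * ((ω i * t : ℝ) : ℂ))) = ∑ j ∈ Finset.range n, (c j : ℂ) *
              (1 + -(Complex.I * (ω i : ℂ)) / ((rr n j / t : ℝ) : ℂ))⁻¹ := by
            intro i
            rw [hPv, hc _ (hvre i).ge]
            refine Finset.sum_congr rfl fun j _ => ?_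
            congr 3
            have hrc : (rr n j : ℂ) ≠ 0 := by exact_mod_cast (hrpos j).ne'
            push_cast
            field_simp
          have h8 : P ((β * t : ℝ) : ℂ) = ∑ j ∈ Finset.range n, (c j : ℂ) *
              (1 + (β : ℂ) / ((rr n j / t : ℝ) : ℂ))⁻¹ := by
            rw [hPv, hc _ (by rw [Complex.ofReal_re]; exact hβt0)]
            refine Finset.sum_congr rfl fun j _ => ?_
            congr 3
            have hrc : (rr n j : ℂ) ≠ 0 := by exact_mod_cast (hrpos j).ne'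
            push_cast
            field_simp
          rw [h8, Finset.sum_congr rfl fun i _ => by rw [h7 i]]
          simp only [mul_sub, Finset.mul_sum]
          rw [Finset.sum_comm, ← Finset.sum_sub_distrib]
          refine Finset.sum_congr rfl fun j _ => ?_
          congr 1
          · refine Finset.sum_congr rfl fun i _ => ?_
            ring
          · ring
        rw [h6]
        refine (norm_sum_le _ _).trans ?_
        refine (Finset.sum_le_sum (g := fun j => |c j| * (δ' * N)) fun j hj => ?_).trans ?_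
        · rw [norm_mul, Complex.norm_real, Real.norm_eq_abs]
          apply mul_le_mul_of_nonneg_left _ (abs_nonneg _)
          have hj' := Finset.mem_range.1 hj
          apply hH
          · rw [div_le_div_iff₀ hM0 htpos]
            calc s * t ≤ T := htT
              _ ≤ 1 * M := by linarith
              _ ≤ rr n j * M := by
                apply mul_le_mul_of_nonneg_right _ hM0.le
                exact hn1.trans (rr_ge n j)
          · rw [div_le_iff₀ htpos]
            have h9 := rr_le n j hnpos hj'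
            rw [div_le_iff₀ hθ0] at hM3
            calc rr n j ≤ n + 1 := h9
              _ ≤ M * θ := hM3
              _ ≤ M * (s * t) := by gcongr
              _ = M * s * t := by ring
        · rw [← Finset.sum_mul, ← hSc, ← mul_assoc]
          exact mul_le_mul_of_nonneg_right hδ2 hN0
      have h10 : ‖(N : ℂ) * P ((β * t : ℝ) : ℂ) - (N : ℂ) * Complex.exp (((-(β * t) : ℝ) : ℂ))‖ ≤
          (ε / 8) * N := by
        rw [← mul_sub, norm_mul, Complex.norm_real, Real.norm_of_nonneg hN0, mul_comm (ε / 8)]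
        apply mul_le_mul_of_nonneg_left _ hN0
        have h11 := exp_prod n hnpos ((β * t : ℝ) : ℂ) (by rw [Complex.ofReal_re]; exact hβt0)
        rw [← hPv, Complex.norm_real, Real.norm_of_nonneg hβt0] at h11
        rw [norm_sub_rev, Complex.ofReal_neg]
        refine h11.trans (le_trans ?_ hnX)
        have h12 : β * t ≤ X := by
          rw [hX]
          calc β * t ≤ B * s * t := by gcongr
            _ = B * (s * t) := by ring
            _ ≤ B * T := by gcongr
            _ ≤ (a0 + B) * T := by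
              apply mul_le_mul_of_nonneg_right _ hT.le
              linarith
        gcongr
      have e3 : ∑ i, (W i : ℂ) * Complex.exp (Complex.I * ((ω i * t : ℝ) : ℂ)) -
          (N : ℂ) * Complex.exp (((-(β * t) : ℝ) : ℂ)) =
          ∑ i, (W i : ℂ) * (Complex.exp (Complex.I * ((ω i * t : ℝ) : ℂ)) -
            P (-(Complex.I * ((ω i * t : ℝ) : ℂ)))) +
          (∑ i, (W i : ℂ) * P (-(Complex.I * ((ω i * t : ℝ) : ℂ))) -
            (N : ℂ) * P ((β * t : ℝ) : ℂ)) +
          ((N : ℂ) * P ((β * t : ℝ) : ℂ) - (N : ℂ) * Complex.exp (((-(β * t) : ℝ) : ℂ))) := by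
        simp only [mul_sub, Finset.sum_sub_distrib]
        ring
      rw [e3]
      refine (norm_add_le _ _).trans ((add_le_add ((norm_add_le _ _).trans (add_le_add h2 h5))
        h10).trans ?_)
      rw [← add_mul, ← add_mul]
      apply mul_le_mul_of_nonneg_right _ hN0
      linarith
  intro t ht
  rcases le_or_gt 0 t with h1 | h1
  · rw [abs_of_nonneg h1] at ht ⊢
    exact hpos t h1 ht
  · rw [abs_of_neg h1] at ht ⊢
    have h2 := hpos (-t) (by linarith) ht
    rw [← Complex.norm_conj] at h2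
    have e4 : (starRingEnd ℂ) (∑ i, (W i : ℂ) * Complex.exp (Complex.I * ((ω i * -t : ℝ) : ℂ)) -
        (N : ℂ) * Complex.exp (((-(β * -t) : ℝ) : ℂ))) =
        ∑ i, (W i : ℂ) * Complex.exp (Complex.I * ((ω i * t : ℝ) : ℂ)) -
        (N : ℂ) * Complex.exp (((-(β * -t) : ℝ) : ℂ)) := by
      rw [map_sub, map_sum, map_mul, ← Complex.exp_conj, Complex.conj_ofReal, Complex.conj_ofReal]
      congr 1
      refine Finset.sum_congr rfl fun i _ => ?_
      rw [map_mul, ← Complex.exp_conj, map_mul, Complex.conj_I, Complex.conj_ofReal,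
        Complex.conj_ofReal]
      congr 2
      push_cast
      ring
    rw [e4] at h2
    exact h2

end time

end Pool.Agent.X133.QD
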