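import Pool.Agent.X133.QD.Time
import Pool.Agent.X133.QE.Abs

/-! The product of resolvents of a finite box. -/

set_option autoImplicit false
set_option linter.unusedSectionVars false
set_option linter.unusedVariables false

open scoped BigOperators Topology
open MeasureTheory Filter Set

namespace Pool.Agent.X133.QD

open Pool.Agent.W788.BK
open Pool.Agent.H4R2.LO (Zd)
open Pool.Agent.TH794.QE (Rs)
open Pool.Agent.X133.LL
open Pool.Agent.X133.QE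

variable {d : ℕ} {ι : Type*} [Fintype ι]

/-- Parseval's identity for the matrix elements -/
theorem Am_parseval1 {Λ : Finset (Zd d)} {V : Zd d → ℝ} {u : ι → Zd d → ℂ} {En : ι → ℝ}
    (h : EF Λ V u En) (hcard : Fintype.card ι = Λ.card) (a : Zd d → ℂ) (ha : ∀ x, ‖a x‖ = 1)
    (n : ι) : ∑ m, ‖Am Λ u a m n‖ ^ 2 = 1 := by
  have hO := ortho h
  have hfr : Fintype.card ι = Module.finrank ℂ (EuclideanSpace ℂ Λ) := by
    rw [finrank_euclideanSpace, hcard, Fintype.card_coe]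
  have hsp : ⊤ ≤ Submodule.span ℂ (Set.range fun n => toE Λ (u n)) :=
    (hO.linearIndependent.span_eq_top_of_card_eq_finrank' hfr).ge
  have h1 := (OrthonormalBasis.mk hO hsp).sum_repr' (toE Λ fun x => a x * u n x)
  simp only [OrthonormalBasis.coe_mk] at h1
  have h2 := comb_sq hO (fun m => (inner ℂ (toE Λ (u m)) (toE Λ fun x => a x * u n x) : ℂ))
  rw [h1, norm_toE] at h2
  have h3 : ∀ m, (inner ℂ (toE Λ (u m)) (toE Λ fun x => a x * u n x) : ℂ) = Am Λ u a m n := by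
    intro m
    rw [inner_toE]
    rfl
  simp only [h3] at h2
  rw [← h2, ← h.one n]
  refine Finset.sum_congr rfl fun x _ => ?_
  rw [norm_mul, ha, one_mul]

theorem Am_parseval2 {Λ : Finset (Zd d)} {V : Zd d → ℝ} {u : ι → Zd d → ℂ} {En : ι → ℝ}
    (h : EF Λ V u En) (hcard : Fintype.card ι = Λ.card) (a : Zd d → ℂ) (ha : ∀ x, ‖a x‖ = 1)
    (m : ι) : ∑ n, ‖Am Λ u a m n‖ ^ 2 = 1 := by
  have h1 := Am_parseval1 h hcard (fun x => (starRingEnd ℂ) (a x)) (fun x => by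
    rw [Complex.norm_conj]; exact ha x) m
  rw [← h1]
  refine Finset.sum_congr rfl fun n _ => ?_
  rw [← Am_conj, Complex.norm_conj]

/-- what is needed at a site -/
structure SiteP (Λ : Finset (Zd d)) (V : Zd d → ℝ) (a : Zd d → ℂ) (x : Zd d)
    (e η τ τ1 C1 K' : ℝ) (g : Zd d → ℂ) : Prop where
  rs : Rs d V x e η g
  prof : ‖∑' y, (starRingEnd ℂ) (a y) * ((‖g y‖ ^ 2 : ℝ) : ℂ) -
    (starRingEnd ℂ) (a x) * ((τ / η : ℝ) : ℂ)‖ ≤ τ1 / η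
  mass : ∑' y, ‖g y‖ ^ 2 ≤ C1 / η
  bd : ∑ y ∈ Λ, ‖kk Λ g y‖ ^ 2 ≤ K' * η
  far : ∑' y, (if y ∈ Λ then 0 else ‖g y‖ ^ 2) ≤ K' / η

theorem tsum_diff {g : Zd d → ℂ} (hg : Summable fun x => ‖g x‖ ^ 2) (b : Zd d → ℂ)
    (hb : ∀ x, ‖b x‖ ≤ 1) (Λ : Finset (Zd d)) :
    ‖∑ y ∈ Λ, b y * ((‖g y‖ ^ 2 : ℝ) : ℂ) - ∑' y, b y * ((‖g y‖ ^ 2 : ℝ) : ℂ)‖ ≤
      ∑' y, (if y ∈ Λ then 0 else ‖g y‖ ^ 2) := by
  have hs1 : Summable fun y => b y * ((‖g y‖ ^ 2 : ℝ) : ℂ) := by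
    apply Summable.of_norm_bounded hg
    intro y
    rw [norm_mul, Complex.norm_real, Real.norm_of_nonneg (sq_nonneg _)]
    exact mul_le_of_le_one_left (sq_nonneg _) (hb y)
  have hs2 : Summable fun y => (if y ∈ Λ then (0 : ℝ) else ‖g y‖ ^ 2) := by
    refine Summable.of_nonneg_of_le (fun x => ?_) (fun x => ?_) hg
    · split_ifs <;> positivity
    · split_ifs
      · positivity
      · exact le_rfl
  have hs3 : Summable fun y => (if y ∈ Λ then (0 : ℂ) else b y * ((‖g y‖ ^ 2 : ℝ) : ℂ)) := by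
    apply Summable.of_norm_bounded hs2
    intro y
    split_ifs
    · rw [norm_zero]
    · rw [norm_mul, Complex.norm_real, Real.norm_of_nonneg (sq_nonneg _)]
      exact mul_le_of_le_one_left (sq_nonneg _) (hb y)
  have h1 : ∑ y ∈ Λ, b y * ((‖g y‖ ^ 2 : ℝ) : ℂ) = (∑' y, b y * ((‖g y‖ ^ 2 : ℝ) : ℂ)) -
      ∑' y, (if y ∈ Λ then (0 : ℂ) else b y * ((‖g y‖ ^ 2 : ℝ) : ℂ)) := by
    rw [← hs1.tsum_sub hs3]
    rw [tsum_eq_sum (s := Λ)]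
    · refine Finset.sum_congr rfl fun y hy => ?_
      rw [if_pos hy, sub_zero]
    · intro y hy
      rw [if_neg hy, sub_self]
  rw [h1, sub_sub_cancel_left, norm_neg]
  refine (norm_tsum_le_tsum_norm hs3.norm).trans ?_
  refine hs3.norm.tsum_le_tsum (fun y => ?_) hs2
  split_ifs
  · rw [norm_zero]
  · rw [norm_mul, Complex.norm_real, Real.norm_of_nonneg (sq_nonneg _)]
    exact mul_le_of_le_one_left (sq_nonneg _) (hb y)

/-- the Green function of the box, tested at a good site -/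
theorem site_p {Λ : Finset (Zd d)} {V : Zd d → ℝ} {u : ι → Zd d → ℂ}
    {En : ι → ℝ} (h : EF Λ V u En) (hcard : Fintype.card ι = Λ.card) {x0 : Zd d} (hx0 : x0 ∈ Λ)
    {a : Zd d → ℂ} (ha : ∀ x, ‖a x‖ = 1)
    {e η τ τ1 C1 K' δ : ℝ} (hη : 0 < η) (hδ : 0 < δ) {g : Zd d → ℂ}
    (hg : SiteP Λ V a x0 e η τ τ1 C1 K' g) :
    ‖((η : ℝ) : ℂ) * (a x0 * ∑ y ∈ Λ, (starRingEnd ℂ) (a y) *
        ((‖Gb u En ((e : ℂ) + (η : ℂ) * Complex.I) x0 y‖ ^ 2 : ℝ) : ℂ)) - (τ : ℂ)‖ ≤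
      τ1 + K' + δ * C1 + (1 + 1 / δ) * K' := by
  obtain ⟨G, hG⟩ : ∃ G, G = Gb u En ((e : ℂ) + (η : ℂ) * Complex.I) x0 := ⟨_, rfl⟩
  have hcmp := Gb_cmp h hcard hx0 hη hg.rs
  rw [← hG] at hcmp ⊢
  have hr : ∑ y ∈ Λ, ‖g y - G y‖ ^ 2 ≤ K' / η := by
    refine hcmp.trans ?_
    calc (η⁻¹) ^ 2 * ∑ y ∈ Λ, ‖kk Λ g y‖ ^ 2 ≤ (η⁻¹) ^ 2 * (K' * η) := by
          apply mul_le_mul_of_nonneg_left hg.bd (by positivity)
      _ = K' / η := by field_simp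
  have hW : ∑ y ∈ Λ, ‖g y‖ ^ 2 ≤ C1 / η :=
    (hg.rs.sq.sum_le_tsum Λ fun y _ => sq_nonneg _).trans hg.mass
  have hpt : ∀ y, |‖G y‖ ^ 2 - ‖g y‖ ^ 2| ≤ δ * ‖g y‖ ^ 2 + (1 + 1 / δ) * ‖g y - G y‖ ^ 2 := by
    intro y
    obtain ⟨A, hA⟩ : ∃ A, A = ‖G y‖ := ⟨_, rfl⟩
    obtain ⟨Bv, hB⟩ : ∃ Bv, Bv = ‖g y‖ := ⟨_, rfl⟩
    obtain ⟨r, hrr⟩ : ∃ r, r = ‖g y - G y‖ := ⟨_, rfl⟩
    have hA0 : 0 ≤ A := by rw [hA]; exact norm_nonneg _
    have hB0 : 0 ≤ Bv := by rw [hB]; exact norm_nonneg _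
    have hr0 : 0 ≤ r := by rw [hrr]; exact norm_nonneg _
    have h1 : |A - Bv| ≤ r := by
      rw [hA, hB, hrr, abs_sub_comm]
      exact abs_norm_sub_norm_le _ _
    rw [← hA, ← hB, ← hrr]
    have h2 : |A ^ 2 - Bv ^ 2| ≤ r * (2 * Bv + r) := by
      have h3 : A ^ 2 - Bv ^ 2 = (A - Bv) * (A + Bv) := by ring
      rw [h3, abs_mul, abs_of_nonneg (add_nonneg hA0 hB0)]
      have h4 : A ≤ Bv + r := by
        have := (abs_le.1 h1).2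
        linarith
      apply mul_le_mul h1 (by linarith) (by positivity) hr0
    refine h2.trans ?_
    have h5 : 2 * (r * Bv) ≤ δ * Bv ^ 2 + 1 / δ * r ^ 2 := by
      have h6 : 0 ≤ (Real.sqrt δ * Bv - r / Real.sqrt δ) ^ 2 := sq_nonneg _
      have h7 : 0 < Real.sqrt δ := Real.sqrt_pos.2 hδ
      have h8 : (Real.sqrt δ * Bv - r / Real.sqrt δ) ^ 2 =
          δ * Bv ^ 2 - 2 * (r * Bv) + 1 / δ * r ^ 2 := by
        have h9 : (Real.sqrt δ) ^ 2 = δ := Real.sq_sqrt hδ.le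
        have h10 : (Real.sqrt δ * Bv - r / Real.sqrt δ) ^ 2 =
            (Real.sqrt δ) ^ 2 * Bv ^ 2 - 2 * (r * Bv) + 1 / (Real.sqrt δ) ^ 2 * r ^ 2 := by
          field_simp
          ring
        rw [h10, h9]
      linarith
    nlinarith
  have hsum : ∑ y ∈ Λ, |‖G y‖ ^ 2 - ‖g y‖ ^ 2| ≤ δ * (C1 / η) + (1 + 1 / δ) * (K' / η) := by
    refine (Finset.sum_le_sum fun y _ => hpt y).trans ?_
    rw [Finset.sum_add_distrib, ← Finset.mul_sum, ← Finset.mul_sum]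
    gcongr
  have h1 := tsum_diff hg.rs.sq (fun y => (starRingEnd ℂ) (a y)) (fun y => by
    rw [Complex.norm_conj]; exact (ha y).le) Λ
  have h3 : ∑ y ∈ Λ, (starRingEnd ℂ) (a y) * ((‖G y‖ ^ 2 : ℝ) : ℂ) -
      (starRingEnd ℂ) (a x0) * ((τ / η : ℝ) : ℂ) =
      (∑ y ∈ Λ, (starRingEnd ℂ) (a y) * ((‖g y‖ ^ 2 : ℝ) : ℂ) -
        ∑' y, (starRingEnd ℂ) (a y) * ((‖g y‖ ^ 2 : ℝ) : ℂ)) +
      (∑' y, (starRingEnd ℂ) (a y) * ((‖g y‖ ^ 2 : ℝ) : ℂ) -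
        (starRingEnd ℂ) (a x0) * ((τ / η : ℝ) : ℂ)) +
      ∑ y ∈ Λ, (starRingEnd ℂ) (a y) * ((‖G y‖ ^ 2 - ‖g y‖ ^ 2 : ℝ) : ℂ) := by
    have h4 : ∑ y ∈ Λ, (starRingEnd ℂ) (a y) * ((‖G y‖ ^ 2 - ‖g y‖ ^ 2 : ℝ) : ℂ) =
        ∑ y ∈ Λ, (starRingEnd ℂ) (a y) * ((‖G y‖ ^ 2 : ℝ) : ℂ) -
        ∑ y ∈ Λ, (starRingEnd ℂ) (a y) * ((‖g y‖ ^ 2 : ℝ) : ℂ) := by
      rw [← Finset.sum_sub_distrib]
      refine Finset.sum_congr rfl fun y _ => ?_
      rw [← mul_sub]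
      congr 1
      push_cast
      ring
    rw [h4]
    ring
  have h4 : ‖∑ y ∈ Λ, (starRingEnd ℂ) (a y) * ((‖G y‖ ^ 2 - ‖g y‖ ^ 2 : ℝ) : ℂ)‖ ≤
      ∑ y ∈ Λ, |‖G y‖ ^ 2 - ‖g y‖ ^ 2| := by
    refine (norm_sum_le _ _).trans (Finset.sum_le_sum fun y _ => ?_)
    rw [norm_mul, Complex.norm_conj, Complex.norm_real, Real.norm_eq_abs, ha, one_mul]
  have h5 : ‖∑ y ∈ Λ, (starRingEnd ℂ) (a y) * ((‖G y‖ ^ 2 : ℝ) : ℂ) -
      (starRingEnd ℂ) (a x0) * ((τ / η : ℝ) : ℂ)‖ ≤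
      (τ1 + K' + δ * C1 + (1 + 1 / δ) * K') / η := by
    rw [h3]
    refine (norm_add_le _ _).trans ((add_le_add (norm_add_le _ _) le_rfl).trans ?_)
    have h6 := hg.prof
    have h7 := hg.far
    have h8 : (τ1 + K' + δ * C1 + (1 + 1 / δ) * K') / η = K' / η + τ1 / η +
        (δ * (C1 / η) + (1 + 1 / δ) * (K' / η)) := by ring
    rw [h8]
    linarith
  have hηc : (η : ℂ) ≠ 0 := by exact_mod_cast hη.ne'
  have haa : a x0 * (starRingEnd ℂ) (a x0) = 1 := by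
    rw [Complex.mul_conj, Complex.normSq_eq_norm_sq, ha]
    norm_num
  have h6 : ((η : ℝ) : ℂ) * (a x0 * ∑ y ∈ Λ, (starRingEnd ℂ) (a y) *
      ((‖G y‖ ^ 2 : ℝ) : ℂ)) - (τ : ℂ) = ((η : ℝ) : ℂ) * (a x0 * (∑ y ∈ Λ, (starRingEnd ℂ) (a y) *
      ((‖G y‖ ^ 2 : ℝ) : ℂ) - (starRingEnd ℂ) (a x0) * ((τ / η : ℝ) : ℂ))) := by
    have h7 : ((η : ℝ) : ℂ) * ((τ / η : ℝ) : ℂ) = (τ : ℂ) := by
      push_cast
      field_simp
    linear_combination ((η : ℂ) * ((τ / η : ℝ) : ℂ)) * haa + (1 : ℂ) * h7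
  rw [h6, norm_mul, norm_mul, ha, one_mul, Complex.norm_real, Real.norm_of_nonneg hη.le]
  calc η * ‖∑ y ∈ Λ, (starRingEnd ℂ) (a y) * ((‖G y‖ ^ 2 : ℝ) : ℂ) -
        (starRingEnd ℂ) (a x0) * ((τ / η : ℝ) : ℂ)‖ ≤
        η * ((τ1 + K' + δ * C1 + (1 + 1 / δ) * K') / η) := by gcongr
    _ = _ := by field_simp

/-- **the product of resolvents of the box** -/
theorem box_T1 {Λ : Finset (Zd d)} {V : Zd d → ℝ} {u : ι → Zd d → ℂ}
    {En : ι → ℝ} (h : EF Λ V u En) (hcard : Fintype.card ι = Λ.card)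
    {a : Zd d → ℂ} (ha : ∀ x, ‖a x‖ = 1) (B : Finset (Zd d)) (hB : B ⊆ Λ)
    {e η τ τ1 C1 K' δ : ℝ} (hη : 0 < η) (hδ : 0 < δ) (hK' : 0 ≤ K') (hτ1 : 0 ≤ τ1) (hC1 : 0 ≤ C1)
    (hsite : ∀ x ∈ Λ \ B, ∃ g, SiteP Λ V a x e η τ τ1 C1 K' g) :
    ‖(η : ℂ) * T1 En (fun m n => ‖Am Λ u a m n‖ ^ 2) ((e : ℂ) + (η : ℂ) * Complex.I) -
      ((Λ.card * τ : ℝ) : ℂ)‖ ≤
      (τ1 + K' + δ * C1 + (1 + 1 / δ) * K') * Λ.card + B.card * (1 / η + |τ|) := by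
  obtain ⟨z, hz⟩ : ∃ z, z = (e : ℂ) + (η : ℂ) * Complex.I := ⟨_, rfl⟩
  have hzim : z.im = η := by rw [hz]; simp
  rw [T1_pos, ← hz, Finset.mul_sum]
  have e1 : ((Λ.card * τ : ℝ) : ℂ) = ∑ _x ∈ Λ, (τ : ℂ) := by
    rw [Finset.sum_const, nsmul_eq_mul]
    push_cast
    rfl
  rw [e1, ← Finset.sum_sub_distrib, ← Finset.sum_sdiff hB]
  refine (norm_add_le _ _).trans (add_le_add ?_ ?_)
  · have hcardΛ : ((Λ \ B).card : ℝ) ≤ Λ.card := by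
      exact_mod_cast Finset.card_le_card Finset.sdiff_subset
    refine (norm_sum_le _ _).trans ?_
    refine (Finset.sum_le_sum (g := fun _ => τ1 + K' + δ * C1 + (1 + 1 / δ) * K')
      fun x hx => ?_).trans ?_
    · obtain ⟨g, hg⟩ := hsite x hx
      have h1 := site_p h hcard (Finset.mem_sdiff.1 hx).1 ha hη hδ hg
      rw [← hz] at h1
      exact h1
    · rw [Finset.sum_const, nsmul_eq_mul, mul_comm]
      apply mul_le_mul_of_nonneg_left hcardΛ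
      positivity
  · refine (norm_sum_le _ _).trans ?_
    refine (Finset.sum_le_sum (g := fun _ => 1 / η + |τ|) fun x hx => ?_).trans ?_
    · refine (norm_sub_le _ _).trans ?_
      rw [Complex.norm_real, Real.norm_eq_abs]
      apply add_le_add _ le_rfl
      rw [norm_mul, Complex.norm_real, Real.norm_of_nonneg hη.le, norm_mul, ha, one_mul]
      have h2 : ‖∑ y ∈ Λ, (starRingEnd ℂ) (a y) * ((‖Gb u En z x y‖ ^ 2 : ℝ) : ℂ)‖ ≤ 1 / η ^ 2 := by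
        have h3 := triv_bd h (hB hx) (z := z) (by rw [hzim]; exact hη)
        rw [hzim] at h3
        refine le_trans ?_ h3
        refine (norm_sum_le _ _).trans (Finset.sum_le_sum fun y _ => ?_)
        rw [norm_mul, Complex.norm_conj, Complex.norm_real, Real.norm_of_nonneg (sq_nonneg _), ha,
          one_mul]
      calc η * ‖∑ y ∈ Λ, (starRingEnd ℂ) (a y) * ((‖Gb u En z x y‖ ^ 2 : ℝ) : ℂ)‖ ≤
            η * (1 / η ^ 2) := by gcongr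
        _ = 1 / η := by field_simp
    · rw [Finset.sum_const, nsmul_eq_mul]

/-- the case of a constant multiplication operator -/
theorem T1_one {Λ : Finset (Zd d)} {V : Zd d → ℝ} {u : ι → Zd d → ℂ}
    {En : ι → ℝ} (h : EF Λ V u En) (e η : ℝ) :
    (η : ℂ) * T1 En (fun m n => ‖Am Λ u (fun _ => 1) m n‖ ^ 2) ((e : ℂ) + (η : ℂ) * Complex.I) =
      ((∑ n, Pz η (En n) e : ℝ) : ℂ) := by
  classical
  rw [T1_K]
  push_cast
  refine Finset.sum_congr rfl fun m _ => ?_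
  have h1 : ∀ n, Am Λ u (fun _ => 1) m n = if m = n then 1 else 0 := by
    intro n
    unfold Am
    simp only [one_mul]
    split_ifs with h2
    · subst h2
      have h3 := h.one m
      have h4 : ∑ x ∈ Λ, (starRingEnd ℂ) (u m x) * u m x = ((∑ x ∈ Λ, ‖u m x‖ ^ 2 : ℝ) : ℂ) := by
        push_cast
        refine Finset.sum_congr rfl fun x _ => ?_
        rw [mul_comm, Complex.mul_conj, Complex.normSq_eq_norm_sq]
        push_cast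
        rfl
      rw [h4, h3, Complex.ofReal_one]
    · exact h.orth m n h2
  rw [Finset.sum_eq_single m]
  · rw [h1, if_pos rfl, norm_one, Complex.ofReal_one, one_pow, one_mul]
    unfold Kz Pz
    rw [Complex.mul_conj, Complex.normSq_eq_norm_sq, den_sq]
    push_cast
    rfl
  · intro n _ hn
    rw [h1, if_neg (Ne.symm hn), norm_zero]
    simp
  · intro h
    exact absurd (Finset.mem_univ m) h

end Pool.Agent.X133.QD
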