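import Pool.Agent.X133.QD.Abs
import Pool.Agent.X133.QE.Full

/-! Quantum diffusion in real time, dimension at least three, bounded potentials. -/

set_option autoImplicit false
set_option linter.unusedSectionVars false

open scoped BigOperators Topology
open MeasureTheory Filter Set

namespace Pool.Agent.X133.QD

open Pool.Agent.W788.BK
open Pool.Agent.H4R2.LO (Zd)
open Pool.Agent.W788.BK.Num
open Pool.Agent.TH794.QD
open Pool.Agent.TH794.QE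
open Pool.Agent.TH794.HK
open Pool.Agent.X133.LL
open Pool.Agent.X133.QE

/-- the statement for the box; the window is `[e - s0, e + s0]` -/
def ConclT (d : ℕ) (W : Zd d → ℝ) (L : ℕ) (A T ε c e s s0 g D : ℝ) : Prop :=
  ∀ (ι : Type) [Fintype ι] (u : ι → Zd d → ℂ) (En : ι → ℝ),
    EF (Bx 0 L) W u En →
    Fintype.card ι = (Bx (0 : Zd d) L).card →
    (g * s0 * (Bx (0 : Zd d) L).card ≤ 3 * Nw En e s0) ∧
    ∀ p : Fin d → ℝ, ∑ i, p i ^ 2 ≤ A * (c ^ 2 * s) → ∀ t : ℝ, |t| ≤ T / s →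
      ‖Cw En (fun i j => ‖Am (Bx 0 L) u (ph p) i j‖ ^ 2) e s0 t -
        ((Nw En e s0 * Real.exp (-(D * (∑ i, p i ^ 2) / c ^ 2 * |t|)) : ℝ) : ℂ)‖ ≤
        ε * Nw En e s0

theorem fin3 (hES : S_ES) (hTH : S_THIRD) (hFL : S_FLUCT) (hIN : S_INV)
    (hSU : S_SUP) (hQB : S_QB) (hLO : S_LOW) (hAD : S_ADM) (hFA : S_FAC) (hO : S_OSC)
    (d : ℕ) (hd : 3 ≤ d) (κ : ℝ) (hκ : 0 < κ) (hκ1 : κ ≤ 1) (b v ε T A : ℝ) (hb : 0 < b)
    (hv : 0 < v) (hε : 0 < ε) (hT : 0 < T) (hA : 0 < A) :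
    ∃ M lam0 : ℝ, 1 ≤ M ∧ 0 < lam0 ∧ ∀ lam : ℝ, 0 < lam → lam ≤ lam0 →
    ∀ (μ : Measure ℝ), IsProbabilityMeasure μ → (∀ᵐ s ∂μ, |s| ≤ b) →
    ∀ Mn V : ℝ, ∫ s, s ∂μ = Mn → ∫ s, (s - Mn) ^ 2 ∂μ = V → v ≤ V →
      ∃ G : Set (Zd d → ℝ), MeasurableSet G ∧
        1 - Real.exp (-lam ^ (-(1 / 102) : ℝ)) ≤
          (Measure.infinitePi fun _ : Zd d => μ).real G ∧
        ∀ ω ∈ G, ∀ L : ℕ, 1 / lam ^ 9 ≤ (L : ℝ) → ∀ e : ℝ,
          |2 * d + lam * Mn - e| ≤ 2 * d - κ →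
          ∀ s s0 : ℝ, lam ^ (83 / 41 : ℝ) ≤ s → M * s ≤ s0 → s0 ≤ lam ^ (161 / 80 : ℝ) →
          ConclT d (fun x => 2 * d + lam * ω x) L A T ε lam e s s0
            (GF (F0 d) ((2 * d + lam * Mn - e : ℝ) : ℂ)).im
            (2 * (GF (F1 d) ((2 * d + lam * Mn - e : ℝ) : ℂ)).im /
              (V * (GF (F0 d) ((2 * d + lam * Mn - e : ℝ) : ℂ)).im ^ 2)) := by
  obtain ⟨⟨m, hm, hl⟩, hfin⟩ := finN hES hTH hFL hIN hSU hQB hLO hAD hFA hO d hd (κ / 2)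
    (by positivity) (by linarith)
  have hd1 : 1 ≤ d := by omega
  have hd0 : (0 : ℝ) < d := by
    have : 0 < d := by omega
    exact_mod_cast this
  obtain ⟨C, hCd⟩ : ∃ C, C = ‖GF (F0 d) 0‖ + CH d * (2 * d : ℝ) ^ (1 / 8 : ℝ) := ⟨_, rfl⟩
  have hC : ∀ E : ℝ, |E| ≤ 2 * d - κ / 2 → (GF (F0 d) (E : ℂ)).im ≤ C := by
    intro E hE
    have h1 := hol0 hO d hd (E : ℂ) 0 (by simp) (by simp)
    rw [sub_zero, Complex.norm_real, Real.norm_eq_abs] at h1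
    have h2 : |E| ^ (1 / 8 : ℝ) ≤ (2 * d : ℝ) ^ (1 / 8 : ℝ) :=
      Real.rpow_le_rpow (abs_nonneg _) (by linarith) (by norm_num)
    have h3 := CH_nonneg d
    have h4 : (GF (F0 d) (E : ℂ)).im ≤ ‖GF (F0 d) (E : ℂ)‖ :=
      (le_abs_self _).trans (Complex.abs_im_le_norm _)
    have h5 : ‖GF (F0 d) (E : ℂ)‖ ≤ ‖GF (F0 d) 0‖ + ‖GF (F0 d) (E : ℂ) - GF (F0 d) 0‖ := by
      have := norm_add_le (GF (F0 d) 0) (GF (F0 d) (E : ℂ) - GF (F0 d) 0)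
      rwa [add_sub_cancel] at this
    have h6 : CH d * |E| ^ (1 / 8 : ℝ) ≤ CH d * (2 * d : ℝ) ^ (1 / 8 : ℝ) := by gcongr
    rw [hCd]
    linarith
  have hC0 : 0 ≤ C := by
    rw [hCd]
    have := CH_nonneg d
    positivity
  obtain ⟨M, N, err0, lam1, hM, hN, herr0, hlam1, habs⟩ := qd_abs d hd1 m C ε T A v (2 * b) hm hC0
    hε hT hA hv (by positivity)
  have hM0 : 0 < M := by linarith
  obtain ⟨cf, hcf, hG⟩ := hfin b v ((N : ℝ) ^ 2) hb hv (by positivity)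
  have hev : ∀ᶠ c in 𝓝[>] (0 : ℝ),
      (1 * c ^ (1 / 200 : ℝ) ≤ err0) ∧ (M * c ^ (1 / 1640 : ℝ) ≤ 1) ∧
      (10 ^ d * Real.exp (-c ^ (-(1 / 101) : ℝ)) / c ^ 3 ≤ Real.exp (-c ^ (-(1 / 102) : ℝ))) ∧
      (1 * c ^ (1 : ℝ) ≤ min 1 (min lam1 cf)) ∧ (CH d * c ^ (789 / 3200 : ℝ) ≤ 1) ∧
      (1 * c ^ (161 / 80 : ℝ) ≤ κ / 2) := by
    filter_upwards [ev_pow 1 err0 (1 / 200) herr0 (by norm_num),
      ev_pow M 1 (1 / 1640) one_pos (by norm_num), ev_prob d,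
      ev_pow 1 (min 1 (min lam1 cf)) 1 (by positivity) one_pos,
      ev_pow (CH d) 1 (789 / 3200) one_pos (by norm_num),
      ev_pow 1 (κ / 2) (161 / 80) (by positivity) (by norm_num)] with c h1 h2 h3 h4 h5 h6
    exact ⟨h1, h2, h3, h4, h5, h6⟩
  obtain ⟨lam0, hlam0, hev2⟩ := mem_nhdsGT_iff_exists_Ioc_subset.1 hev
  refine ⟨M, lam0, hM, hlam0, fun c hc hcl μ hμ hμb Mn V hMn hV hvV => ?_⟩
  obtain ⟨n1, n2, n3, n4, n5, n6⟩ := hev2 ⟨hc, hcl⟩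
  rw [one_mul] at n1 n4 n6
  rw [Real.rpow_one] at n4
  have hc1' : c ≤ 1 := n4.trans (min_le_left _ _)
  have hcl1 : c ≤ lam1 := n4.trans ((min_le_right _ _).trans (min_le_left _ _))
  have hcf1 : c ≤ cf := n4.trans ((min_le_right _ _).trans (min_le_right _ _))
  obtain ⟨G1, hG1m, hG1P, hG1⟩ := hG c hc hcf1 μ hμ hμb Mn V hMn hV hvV
  have hVpos : 0 < V := hv.trans_le hvV
  have hVb := var_le b μ hμb Mn V hMn hV
  have hhold : CH d * (c ^ (161 / 80 : ℝ)) ^ (1 / 8 : ℝ) ≤ c ^ (1 / 200 : ℝ) := by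
    have h1 : (c ^ (161 / 80 : ℝ)) ^ (1 / 8 : ℝ) = c ^ (789 / 3200 : ℝ) * c ^ (1 / 200 : ℝ) := by
      rw [← Real.rpow_mul hc.le, ← Real.rpow_add hc]
      congr 1
      norm_num
    have h2 : 0 ≤ c ^ (1 / 200 : ℝ) := by positivity
    calc CH d * (c ^ (161 / 80 : ℝ)) ^ (1 / 8 : ℝ) =
          (CH d * c ^ (789 / 3200 : ℝ)) * c ^ (1 / 200 : ℝ) := by rw [h1]; ring
      _ ≤ 1 * c ^ (1 / 200 : ℝ) := by gcongr
      _ = _ := one_mul _
  have hcont : ∀ E E' : ℝ, |E| ≤ 2 * d - κ / 2 → |E'| ≤ 2 * d - κ / 2 →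
      |E - E'| ≤ c ^ (161 / 80 : ℝ) →
      |(GF (F0 d) (E : ℂ)).im - (GF (F0 d) (E' : ℂ)).im| ≤ c ^ (1 / 200 : ℝ) ∧
      |(GF (F1 d) (E : ℂ)).im - (GF (F1 d) (E' : ℂ)).im| ≤ c ^ (1 / 200 : ℝ) := by
    intro E E' _ _ hEE
    have h3 := CH_nonneg d
    have h4 : ‖(E : ℂ) - (E' : ℂ)‖ = |E - E'| := by
      rw [← Complex.ofReal_sub, Complex.norm_real, Real.norm_eq_abs]
    have h5 : CH d * |E - E'| ^ (1 / 8 : ℝ) ≤ CH d * (c ^ (161 / 80 : ℝ)) ^ (1 / 8 : ℝ) := by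
      gcongr
    constructor
    · have h1 := hol0 hO d hd (E : ℂ) (E' : ℂ) (by simp) (by simp)
      rw [h4] at h1
      rw [← Complex.sub_im]
      exact (Complex.abs_im_le_norm _).trans (h1.trans (h5.trans hhold))
    · have h1 := hol1 hO d hd (E : ℂ) (E' : ℂ) (by simp) (by simp)
      rw [h4] at h1
      rw [← Complex.sub_im]
      exact (Complex.abs_im_le_norm _).trans (h1.trans (h5.trans hhold))
  obtain ⟨G, hGm, hGP, hGω⟩ := habs c hc hcl1 μ Mn V hvV hVb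
    (fun E => |E| ≤ 2 * d - κ / 2) (fun E => GF (F0 d) (E : ℂ)) (fun E => GF (F1 d) (E : ℂ))
    (fun E hE => ⟨(hl E hE).1, (hl E hE).2, hC E hE⟩)
    (c ^ (81 / 40 : ℝ)) (c ^ (161 / 80 : ℝ)) (c ^ (1 / 200 : ℝ)) le_rfl
    (Real.rpow_le_one hc.le hc1' (by norm_num)) (by positivity) n1 hcont G1 hG1m
    (fun ω hω e he η hη1 hη2 => by
      have hη0 : 0 < η := lt_of_lt_of_le (by positivity) hη1
      obtain ⟨hωb, hprf⟩ := hG1 ω hω
      refine ⟨rs_exists (fun x => 2 * d + c * ω x) (2 * d + c * b)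
        (fun x => ?_) 0 e η hη0, fun u hu p hp => ?_⟩
      · have h1 := hωb x
        have h2 : |2 * (d : ℝ) + c * ω x| ≤ |2 * (d : ℝ)| + |c * ω x| := abs_add_le _ _
        have h3 : |c * ω x| ≤ c * b := by
          rw [abs_mul, abs_of_pos hc]
          gcongr
        have h4 : |2 * (d : ℝ)| = 2 * d := abs_of_pos (by positivity)
        linarith
      · exact hprf 0 (by
          rw [norm_zero]
          positivity) e he η hη1 hη2 u hu p hp)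
  refine ⟨G, hGm, ?_, ?_⟩
  · refine le_trans ?_ hGP
    rw [probReal_compl_eq_one_sub hG1m]
    have h1 : 10 ^ d * (1 - (Measure.infinitePi fun _ : Zd d => μ).real G1) / c ^ 3 ≤
        10 ^ d * Real.exp (-c ^ (-(1 / 101) : ℝ)) / c ^ 3 := by
      gcongr
      linarith
    linarith
  · intro ω hω L hL e he s s0 hs1 hMs hs0
    have hsM : M * c ^ (81 / 40 : ℝ) ≤ s := by
      have h1 : c ^ (81 / 40 : ℝ) = c ^ (83 / 41 : ℝ) * c ^ (1 / 1640 : ℝ) := by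
        rw [← Real.rpow_add hc]
        congr 1
        norm_num
      have h2 : 0 < c ^ (83 / 41 : ℝ) := by positivity
      calc M * c ^ (81 / 40 : ℝ) = c ^ (83 / 41 : ℝ) * (M * c ^ (1 / 1640 : ℝ)) := by
            rw [h1]; ring
        _ ≤ c ^ (83 / 41 : ℝ) * 1 := by gcongr
        _ ≤ s := by rw [mul_one]; exact hs1
    intro ι _ u En hEF hcard
    obtain ⟨hcnt, hmain⟩ := hGω ω hω L hL e (fun e' he' => by
      have h1 : |2 * d + c * Mn - e'| ≤ |2 * d + c * Mn - e| + |e' - e| := by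
        have := abs_add_le (2 * d + c * Mn - e) (-(e' - e))
        rw [abs_neg] at this
        have h2 : 2 * d + c * Mn - e + -(e' - e) = 2 * d + c * Mn - e' := by ring
        rwa [h2] at this
      linarith) s s0 hsM hMs hs0 ι u En hEF hcard
    refine ⟨hcnt, fun p hp t ht => ?_⟩
    have hmain := hmain p hp t ht
    have hrate : 2 * (∑ i, p i ^ 2) / (c ^ 2 * V) *
        ((GF (F1 d) ((2 * d + c * Mn - e : ℝ) : ℂ)).im /
          (GF (F0 d) ((2 * d + c * Mn - e : ℝ) : ℂ)).im ^ 2) =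
        2 * (GF (F1 d) ((2 * d + c * Mn - e : ℝ) : ℂ)).im /
          (V * (GF (F0 d) ((2 * d + c * Mn - e : ℝ) : ℂ)).im ^ 2) * (∑ i, p i ^ 2) / c ^ 2 := by
      rw [div_mul_div_comm, div_mul_eq_mul_div, div_div]
      congr 1 <;> ring
    rw [hrate] at hmain
    exact hmain

end Pool.Agent.X133.QD
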