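import Pool.Agent.X133.QD.Win3

/-! Microcanonical time correlations from the product of resolvents. -/

set_option autoImplicit false

open scoped BigOperators Topology
open MeasureTheory Filter Set

namespace Pool.Agent.X133.QD

open Pool.Agent.X133.QE (T1)

/-- the number of eigenvalues in the window -/
noncomputable def Nw {ι : Type} [Fintype ι] (En : ι → ℝ) (e s0 : ℝ) : ℝ :=
  ∑ m, (if |En m - e| ≤ s0 then (1 : ℝ) else 0)

/-- the correlation function of the window -/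
noncomputable def Cw {ι : Type} [Fintype ι] (En : ι → ℝ) (w : ι → ι → ℝ) (e s0 t : ℝ) : ℂ :=
  ∑ m, ∑ n, (if |En m - e| ≤ s0 then
    (w m n : ℂ) * Complex.exp (Complex.I * (((En n - En m) * t : ℝ) : ℂ)) else 0)

theorem K_diag {y : ℝ} (hy : 0 < y) (E x : ℝ) : Kz y E E x = ((Pz y E x : ℝ) : ℂ) := by
  unfold Kz Pz
  rw [Complex.mul_conj, Complex.normSq_eq_norm_sq, den_sq]
  push_cast
  rfl

/-- **time correlations** -/
theorem time_det (ε T B m : ℝ) (hε : 0 < ε) (hT : 0 < T) (hB : 0 ≤ B) (hm : 0 < m) :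
    ∃ M δ0 : ℝ, 1 ≤ M ∧ 0 < δ0 ∧ ∀ (ι : Type) [Fintype ι] (En : ι → ℝ) (w : ι → ι → ℝ)
      (e s s0 β g Lc : ℝ), (∀ i j, 0 ≤ w i j) → (∀ i, ∑ j, w i j = 1) → (∀ j, ∑ i, w i j = 1) →
      0 < s → M * s ≤ s0 → 0 ≤ β → β ≤ B * s → m ≤ g → 0 ≤ Lc →
      (∀ x y : ℝ, |x - e| ≤ s0 → s / M ≤ y → y ≤ M * s →
        ‖(y : ℂ) * T1 En w ((x : ℂ) + (y : ℂ) * Complex.I) -
          ((Lc * g * (1 + β / (2 * y))⁻¹ : ℝ) : ℂ)‖ ≤ δ0 * Lc) →
      (∀ x y : ℝ, |x - e| ≤ s0 → s / M ≤ y → y ≤ s0 →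
        |∑ n, Pz y (En n) x - Lc * g| ≤ δ0 * Lc) →
      (s0 * Lc * g ≤ 3 * Nw En e s0) ∧ ∀ t : ℝ, |t| ≤ T / s →
        ‖Cw En w e s0 t - ((Nw En e s0 * Real.exp (-(β * |t|)) : ℝ) : ℂ)‖ ≤ ε * Nw En e s0 := by
  obtain ⟨M1, δ1, hM1, hδ1, hmain⟩ := time_main ε T B hε hT hB
  obtain ⟨E2, hE2⟩ : ∃ E2, E2 = min (1 / 4) (δ1 / 4) := ⟨_, rfl⟩
  have hE20 : 0 < E2 := by rw [hE2]; exact lt_min (by norm_num) (by positivity)
  have hE24 : E2 ≤ 1 / 4 := by rw [hE2]; exact min_le_left _ _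
  have hE2δ : E2 ≤ δ1 / 4 := by rw [hE2]; exact min_le_right _ _
  obtain ⟨t0, ht0⟩ : ∃ t0, t0 = 40 / E2 := ⟨_, rfl⟩
  have ht01 : 1 ≤ t0 := by
    rw [ht0, le_div_iff₀ hE20]
    linarith
  have ht0p : 0 < t0 := by linarith
  have ht02 : 20 / t0 = E2 / 2 := by
    rw [ht0]
    field_simp
    ring
  obtain ⟨δ0, hδ0⟩ : ∃ δ0, δ0 = m * (E2 / 2) := ⟨_, rfl⟩
  have hδ0p : 0 < δ0 := by rw [hδ0]; positivity
  obtain ⟨M, hM⟩ : ∃ M, M = 2 * M1 * t0 ^ 4 := ⟨_, rfl⟩
  have ht04 : 1 ≤ t0 ^ 4 := one_le_pow₀ ht01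
  have hM2 : 2 * M1 ≤ M := by
    rw [hM]
    exact le_mul_of_one_le_right (by positivity) ht04
  have hMM1 : 1 ≤ M := by linarith
  have hMt : t0 ^ 4 ≤ M := by
    rw [hM]
    exact le_mul_of_one_le_left (by positivity) (by linarith)
  refine ⟨M, δ0, hMM1, hδ0p, ?_⟩
  intro ι _ En w e s s0 β g Lc hw hrow hcol hs hMs hβ hβB hmg hLc h1 h2
  classical
  have hM0 : 0 < M := by linarith
  have hg : 0 < g := hm.trans_le hmg
  have hs0 : 0 < s0 := lt_of_lt_of_le (by positivity) hMs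
  have hss0 : s ≤ s0 := (le_mul_of_one_le_left hs.le hMM1).trans hMs
  have hδg : δ0 ≤ g := by
    rw [hδ0]
    calc m * (E2 / 2) ≤ m * 1 := by gcongr; linarith
      _ ≤ g := by linarith
  have hδ0g : δ0 / g ≤ E2 / 2 := by
    rw [div_le_iff₀ hg, hδ0]
    nlinarith
  obtain ⟨N, hN⟩ : ∃ N, N = Nw En e s0 := ⟨_, rfl⟩
  rw [← hN]
  have hN0 : 0 ≤ N := by
    rw [hN]
    exact Finset.sum_nonneg fun m _ => by split_ifs <;> norm_num
  obtain ⟨G, hG⟩ : ∃ G, G = 2 * s0 * Lc * g := ⟨_, rfl⟩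
  have hG0 : 0 ≤ G := by rw [hG]; positivity
  obtain ⟨h, hh⟩ : ∃ h, h = s0 / t0 ^ 2 := ⟨_, rfl⟩
  have hh0 : 0 < h := by rw [hh]; positivity
  have hhs0 : h ≤ s0 := by
    rw [hh]
    exact div_le_self hs0.le (one_le_pow₀ ht01)
  have hhs : s / M ≤ h := by
    have e1 : s / M ≤ s := div_le_self hs.le hMM1
    refine e1.trans ?_
    rw [hh, le_div_iff₀ (by positivity)]
    have e2 : t0 ^ 2 ≤ M := (pow_le_pow_right₀ ht01 (by norm_num)).trans hMt
    calc s * t0 ^ 2 ≤ s * M := by gcongr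
      _ = M * s := mul_comm _ _
      _ ≤ s0 := hMs
  have hup : ∀ x y : ℝ, |x - e| ≤ s0 → s / M ≤ y → y ≤ s0 → ∑ n, Pz y (En n) x ≤ (g + δ0) * Lc := by
    intro x y hx hy1 hy2
    have := (abs_le.1 (h2 x y hx hy1 hy2)).2
    linarith
  -- the number of eigenvalues
  have hNG : ∀ y : ℝ, 0 < y → s / M ≤ y → y ≤ s0 / t0 ^ 4 → |Real.pi * N - G| ≤ E2 * G := by
    intro y hy hy1 hy4
    have hys0 : y ≤ s0 := hy4.trans (div_le_self hs0.le ht04)
    have h3 := win_main En (fun i j => if i = j then (1 : ℝ) else 0) (fun i j => by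
      split_ifs <;> norm_num) (fun i => by simp) (fun j => by simp) e s0 y h Lc g 1 δ0 t0 hs0 hy
      hLc hg hδ0p.le hδg ht01 hh hy4 (fun x hx => by
        have h4 := h2 x y hx hy1 hys0
        rw [T1_K]
        have h5 : ∑ m, ∑ n, (((if m = n then (1 : ℝ) else 0) : ℝ) : ℂ) * Kz y (En m) (En n) x =
            ((∑ n, Pz y (En n) x : ℝ) : ℂ) := by
          push_cast
          refine Finset.sum_congr rfl fun m _ => ?_
          rw [Finset.sum_eq_single m]
          · rw [if_pos rfl, Complex.ofReal_one, one_mul, K_diag hy]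
          · intro n _ hn
            rw [if_neg (Ne.symm hn), Complex.ofReal_zero, zero_mul]
          · intro h
            exact absurd (Finset.mem_univ m) h
        rw [h5, mul_one, ← Complex.ofReal_sub, Complex.norm_real]
        exact h4) (fun x hx => hup x y hx hy1 hys0) (fun x hx => hup x h hx hhs hhs0)
    have h6 : ∑ m, ∑ n, (if |En m - e| ≤ s0 then (((if m = n then (1 : ℝ) else 0) : ℝ) : ℂ) *
        ((Real.pi : ℂ) * (1 + -(Complex.I * ((En n - En m : ℝ) : ℂ)) / ((2 * y : ℝ) : ℂ))⁻¹)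
          else 0) = ((Real.pi * N : ℝ) : ℂ) := by
      rw [hN]
      unfold Nw
      push_cast
      rw [Finset.mul_sum]
      refine Finset.sum_congr rfl fun m _ => ?_
      split_ifs with h7
      · rw [Finset.sum_eq_single m]
        · rw [if_pos rfl]
          simp
        · intro n _ hn
          rw [if_neg (Ne.symm hn), Complex.ofReal_zero, zero_mul]
        · intro h
          exact absurd (Finset.mem_univ m) h
      · simp
    rw [h6, mul_one, ← hG, ← Complex.ofReal_sub, Complex.norm_real, Real.norm_eq_abs] at h3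
    refine h3.trans ?_
    apply mul_le_mul_of_nonneg_right _ hG0
    linarith
  refine ⟨?_, fun t ht => ?_⟩
  · have h3 := hNG (s / M) (by positivity) le_rfl (by
      rw [le_div_iff₀ (by positivity)]
      have e1 : s / M ≤ s := div_le_self hs.le hMM1
      calc s / M * t0 ^ 4 ≤ s * M := by gcongr
        _ = M * s := mul_comm _ _
        _ ≤ s0 := hMs)
    have h4 := (abs_le.1 h3).1
    have h5 : E2 * G ≤ 1 / 4 * G := by gcongr
    have h6 : Real.pi * N ≤ 4 * N := by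
      have := Real.pi_le_four
      gcongr
    have h7 : 3 / 2 * (s0 * Lc * g) ≤ Real.pi * N := by
      have : G = 2 * (s0 * Lc * g) := by rw [hG]; ring
      linarith
    linarith
  -- the transform
  have hkey : ∀ a : ℝ, s / M1 ≤ a → a ≤ M1 * s →
      ‖∑ i : ι × ι, (((if |En i.1 - e| ≤ s0 then w i.1 i.2 else 0) : ℝ) : ℂ) *
        (1 + -(Complex.I * ((En i.2 - En i.1 : ℝ) : ℂ)) / (a : ℂ))⁻¹ -
          (N : ℂ) * (1 + (β : ℂ) / (a : ℂ))⁻¹‖ ≤ δ1 * N := by
    intro a ha1 ha2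
    have hM10 : 0 < M1 := by linarith
    have ha0 : 0 < a := lt_of_lt_of_le (by positivity) ha1
    obtain ⟨y, hy⟩ : ∃ y, y = a / 2 := ⟨_, rfl⟩
    have h2y : 2 * y = a := by rw [hy]; ring
    have hy0 : 0 < y := by rw [hy]; positivity
    have hy1 : s / M ≤ y := by
      have e1 : s / M ≤ s / (2 * M1) := div_le_div_of_nonneg_left hs.le (by positivity) hM2
      have e2 : s / (2 * M1) = s / M1 / 2 := by field_simp
      rw [hy]
      linarith
    have hy4 : y ≤ s0 / t0 ^ 4 := by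
      rw [le_div_iff₀ (by positivity), hy]
      calc a / 2 * t0 ^ 4 ≤ M1 * s * t0 ^ 4 := by
            apply mul_le_mul_of_nonneg_right _ (by positivity)
            linarith
        _ ≤ M * s := by
            rw [hM]
            have : 0 ≤ M1 * t0 ^ 4 * s := by positivity
            linarith
        _ ≤ s0 := hMs
    have hyM : y ≤ M * s := by
      rw [hy]
      have : M1 * s ≤ M * s := by
        apply mul_le_mul_of_nonneg_right _ hs.le
        linarith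
      linarith
    have hys0 : y ≤ s0 := hy4.trans (div_le_self hs0.le ht04)
    have hr0 : 0 ≤ (1 + β / a)⁻¹ := by positivity
    have hr1 : (1 + β / a)⁻¹ ≤ 1 := inv_le_one_of_one_le₀ (by
      have : 0 ≤ β / a := by positivity
      linarith)
    have h3 := win_main En w hw hrow hcol e s0 y h Lc g (1 + β / a)⁻¹ δ0 t0 hs0 hy0
      hLc hg hδ0p.le hδg ht01 hh hy4 (fun x hx => by
        have h4 := h1 x y hx hy1 hyM
        rw [h2y] at h4
        exact h4) (fun x hx => hup x y hx hy1 hys0) (fun x hx => hup x h hx hhs hhs0)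
    have h5 := hNG y hy0 hy1 hy4
    rw [← hG, h2y] at h3
    have h6 : ∑ m, ∑ n, (if |En m - e| ≤ s0 then (w m n : ℂ) * ((Real.pi : ℂ) *
        (1 + -(Complex.I * ((En n - En m : ℝ) : ℂ)) / (a : ℂ))⁻¹) else 0) =
        (Real.pi : ℂ) * ∑ i : ι × ι, (((if |En i.1 - e| ≤ s0 then w i.1 i.2 else 0) : ℝ) : ℂ) *
        (1 + -(Complex.I * ((En i.2 - En i.1 : ℝ) : ℂ)) / (a : ℂ))⁻¹ := by
      rw [Fintype.sum_prod_type, Finset.mul_sum]
      refine Finset.sum_congr rfl fun m _ => ?_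
      rw [Finset.mul_sum]
      refine Finset.sum_congr rfl fun n _ => ?_
      split_ifs
      · ring
      · simp
    rw [h6] at h3
    obtain ⟨Φ, hΦ⟩ : ∃ Φ, Φ = ∑ i : ι × ι, (((if |En i.1 - e| ≤ s0 then w i.1 i.2 else 0) : ℝ) : ℂ) *
        (1 + -(Complex.I * ((En i.2 - En i.1 : ℝ) : ℂ)) / (a : ℂ))⁻¹ := ⟨_, rfl⟩
    rw [← hΦ] at h3 ⊢
    have e1 : (N : ℂ) * (1 + (β : ℂ) / (a : ℂ))⁻¹ = ((N * (1 + β / a)⁻¹ : ℝ) : ℂ) := by
      push_cast
      rfl
    rw [e1]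
    have hpi := Real.pi_pos
    have hpi3 := Real.pi_gt_three
    have e2 : ‖(Real.pi : ℂ) * (Φ - ((N * (1 + β / a)⁻¹ : ℝ) : ℂ))‖ =
        Real.pi * ‖Φ - ((N * (1 + β / a)⁻¹ : ℝ) : ℂ)‖ := by
      rw [norm_mul, Complex.norm_real, Real.norm_of_nonneg hpi.le]
    have e3 : (Real.pi : ℂ) * (Φ - ((N * (1 + β / a)⁻¹ : ℝ) : ℂ)) =
        ((Real.pi : ℂ) * Φ - ((G * (1 + β / a)⁻¹ : ℝ) : ℂ)) -
        (((Real.pi * N - G) * (1 + β / a)⁻¹ : ℝ) : ℂ) := by
      push_cast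
      ring
    have e4 : ‖(((Real.pi * N - G) * (1 + β / a)⁻¹ : ℝ) : ℂ)‖ ≤ E2 * G := by
      rw [Complex.norm_real, Real.norm_eq_abs, abs_mul, abs_of_nonneg hr0]
      calc |Real.pi * N - G| * (1 + β / a)⁻¹ ≤ |Real.pi * N - G| * 1 := by gcongr
        _ ≤ E2 * G := by rw [mul_one]; exact h5
    have e5 : ‖(Real.pi : ℂ) * Φ - ((G * (1 + β / a)⁻¹ : ℝ) : ℂ)‖ ≤ E2 * G := by
      rw [hG] at h3 ⊢
      refine h3.trans ?_
      apply mul_le_mul_of_nonneg_right _ (by positivity)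
      linarith
    have e6 : Real.pi * ‖Φ - ((N * (1 + β / a)⁻¹ : ℝ) : ℂ)‖ ≤ 2 * (E2 * G) := by
      rw [← e2, e3]
      refine (norm_sub_le _ _).trans ?_
      linarith
    -- `G` in terms of `N`
    have e7 : 3 / 4 * G ≤ Real.pi * N := by
      have h7 := (abs_le.1 h5).1
      have h8 : E2 * G ≤ 1 / 4 * G := by gcongr
      linarith
    have e8 : 2 * (E2 * G) ≤ Real.pi * (δ1 * N) := by
      have h9 : E2 * G ≤ E2 * (4 / 3 * (Real.pi * N)) := by
        apply mul_le_mul_of_nonneg_left _ hE20.le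
        linarith
      have h10 : E2 * (4 / 3 * (Real.pi * N)) ≤ δ1 / 4 * (4 / 3 * (Real.pi * N)) := by gcongr
      have h11 : 0 ≤ δ1 * (Real.pi * N) := by positivity
      linarith
    exact le_of_mul_le_mul_left (e6.trans e8) hpi
  have hfin := hmain (ι × ι) (fun i => if |En i.1 - e| ≤ s0 then w i.1 i.2 else 0)
    (fun i => En i.2 - En i.1) N s β (fun i => by
      split_ifs
      · exact hw _ _
      · exact le_rfl) (by
      rw [Fintype.sum_prod_type, hN]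
      unfold Nw
      refine Finset.sum_congr rfl fun m _ => ?_
      split_ifs
      · exact hrow m
      · simp) hs hβ hβB hkey t ht
  have e1 : Cw En w e s0 t = ∑ i : ι × ι, (((if |En i.1 - e| ≤ s0 then w i.1 i.2 else 0) : ℝ) : ℂ) *
      Complex.exp (Complex.I * (((En i.2 - En i.1) * t : ℝ) : ℂ)) := by
    unfold Cw
    rw [Fintype.sum_prod_type]
    refine Finset.sum_congr rfl fun m _ => Finset.sum_congr rfl fun n _ => ?_
    split_ifs
    · rfl
    · simp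
  rw [e1]
  refine le_trans (le_of_eq ?_) hfin
  congr 2
  rw [Complex.ofReal_mul, Complex.ofReal_exp]

end Pool.Agent.X133.QD
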