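import Pool.Agent.X133.QD.Appr
import Pool.Agent.X133.QE.Circ

/-! Integrals over the energy: from the product of resolvents to microcanonical averages. -/

set_option autoImplicit false

open scoped BigOperators Topology
open MeasureTheory Filter Set

namespace Pool.Agent.X133.QD

/-- the Poisson kernel -/
noncomputable def Pz (y E x : ℝ) : ℝ := y / ((E - x) ^ 2 + y ^ 2)

/-- the product of two resolvents -/
noncomputable def Kz (y E E' x : ℝ) : ℂ :=
  (y : ℂ) / (((E : ℂ) - ((x : ℂ) + (y : ℂ) * Complex.I)) *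
    (starRingEnd ℂ) ((E' : ℂ) - ((x : ℂ) + (y : ℂ) * Complex.I)))

theorem Pz_nonneg {y : ℝ} (hy : 0 < y) (E x : ℝ) : 0 ≤ Pz y E x := by
  unfold Pz
  positivity

theorem Pz_le {y : ℝ} (hy : 0 < y) (E x : ℝ) : Pz y E x ≤ 1 / y := by
  unfold Pz
  rw [div_le_div_iff₀ (by positivity) hy]
  nlinarith [sq_nonneg (E - x)]

theorem Pz_cont {y : ℝ} (hy : 0 < y) (E : ℝ) : Continuous (Pz y E) := by
  unfold Pz
  apply Continuous.div continuous_const (by fun_prop)
  intro x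
  positivity

theorem Pz_deriv {y : ℝ} (hy : 0 < y) (E x : ℝ) :
    HasDerivAt (fun x => Real.arctan ((x - E) / y)) (Pz y E x) x := by
  have h1 : HasDerivAt (fun x : ℝ => (x - E) / y) (1 / y) x :=
    ((hasDerivAt_id x).sub_const E).div_const y
  have h2 := h1.arctan
  have h3 : 1 / (1 + ((x - E) / y) ^ 2) * (1 / y) = Pz y E x := by
    unfold Pz
    field_simp
    ring
  rwa [h3] at h2

theorem arctan_top {y : ℝ} (hy : 0 < y) (E : ℝ) :
    Tendsto (fun x => Real.arctan ((x - E) / y)) atTop (𝓝 (Real.pi / 2)) := by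
  refine (Real.tendsto_arctan_atTop.mono_right nhdsWithin_le_nhds).comp ?_
  apply Tendsto.atTop_div_const hy
  exact tendsto_atTop_add_const_right _ _ tendsto_id

theorem arctan_bot {y : ℝ} (hy : 0 < y) (E : ℝ) :
    Tendsto (fun x => Real.arctan ((x - E) / y)) atBot (𝓝 (-(Real.pi / 2))) := by
  refine (Real.tendsto_arctan_atBot.mono_right nhdsWithin_le_nhds).comp ?_
  apply Tendsto.atBot_div_const hy
  exact tendsto_atBot_add_const_right _ _ tendsto_id

theorem Pz_int {y : ℝ} (hy : 0 < y) (E : ℝ) : Integrable (Pz y E) := by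
  have h1 := (integrable_inv_one_add_sq.comp_div (g := fun x : ℝ => (1 + x ^ 2)⁻¹) hy.ne')
  have h2 := (h1.comp_sub_right E).const_mul (1 / y)
  refine h2.congr (Filter.Eventually.of_forall fun x => ?_)
  unfold Pz
  beta_reduce
  field_simp
  ring

theorem Pz_total {y : ℝ} (hy : 0 < y) (E : ℝ) : ∫ x, Pz y E x = Real.pi := by
  rw [integral_of_hasDerivAt_of_tendsto (Pz_deriv hy E) (Pz_int hy E) (arctan_bot hy E)
    (arctan_top hy E)]
  ring

theorem den_ne {y : ℝ} (hy : 0 < y) (E x : ℝ) : (E : ℂ) - ((x : ℂ) + (y : ℂ) * Complex.I) ≠ 0 := by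
  intro h
  have h1 := congrArg Complex.im h
  simp at h1
  exact hy.ne' h1

theorem den_sq (y E x : ℝ) :
    ‖(E : ℂ) - ((x : ℂ) + (y : ℂ) * Complex.I)‖ ^ 2 = (E - x) ^ 2 + y ^ 2 := by
  rw [← Complex.normSq_eq_norm_sq, Complex.normSq_apply]
  simp
  ring

theorem Kz_norm {y : ℝ} (hy : 0 < y) (E E' x t : ℝ) (ht : 0 < t) :
    ‖Kz y E E' x‖ ≤ (t * Pz y E x + Pz y E' x / t) / 2 := by
  obtain ⟨a, ha⟩ : ∃ a, a = ‖(E : ℂ) - ((x : ℂ) + (y : ℂ) * Complex.I)‖ := ⟨_, rfl⟩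
  obtain ⟨b, hb⟩ : ∃ b, b = ‖(E' : ℂ) - ((x : ℂ) + (y : ℂ) * Complex.I)‖ := ⟨_, rfl⟩
  have ha0 : 0 < a := by rw [ha]; exact norm_pos_iff.2 (den_ne hy E x)
  have hb0 : 0 < b := by rw [hb]; exact norm_pos_iff.2 (den_ne hy E' x)
  have h1 : ‖Kz y E E' x‖ = y / (a * b) := by
    unfold Kz
    rw [norm_div, norm_mul, Complex.norm_conj, Complex.norm_real, Real.norm_of_nonneg hy.le, ha, hb]
  have h2 : Pz y E x = y / a ^ 2 := by unfold Pz; rw [ha, den_sq]
  have h3 : Pz y E' x = y / b ^ 2 := by unfold Pz; rw [hb, den_sq]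
  rw [h1, h2, h3]
  have h4 : (t * (y / a ^ 2) + y / b ^ 2 / t) / 2 - y / (a * b) =
      y * (t * b - a) ^ 2 / (2 * t * a ^ 2 * b ^ 2) := by
    field_simp
    ring
  have h5 : 0 ≤ y * (t * b - a) ^ 2 / (2 * t * a ^ 2 * b ^ 2) := by positivity
  linarith

theorem Kz_cont {y : ℝ} (hy : 0 < y) (E E' : ℝ) : Continuous (Kz y E E') := by
  unfold Kz
  apply Continuous.div continuous_const
  · exact ((continuous_const.sub ((Complex.continuous_ofReal).add continuous_const))).mul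
      (Complex.continuous_conj.comp (continuous_const.sub
        ((Complex.continuous_ofReal).add continuous_const)))
  · intro x
    exact mul_ne_zero (den_ne hy E x) ((map_ne_zero _).2 (den_ne hy E' x))

theorem Kz_int {y : ℝ} (hy : 0 < y) (E E' : ℝ) : Integrable (Kz y E E') := by
  refine Integrable.mono' (g := fun x => (1 * Pz y E x + Pz y E' x / 1) / 2) ?_
    (Kz_cont hy E E').aestronglyMeasurable
    (Filter.Eventually.of_forall fun x => Kz_norm hy E E' x 1 one_pos)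
  exact (((Pz_int hy E).const_mul 1).add ((Pz_int hy E').div_const 1)).div_const 2

/-- the logarithms cancel at infinity -/
theorem log_lim (E E' y : ℝ) (l : Filter ℝ) (hl : Tendsto (fun x : ℝ => |x|) l atTop) :
    Tendsto (fun x => Real.log ((E' - x) ^ 2 + y ^ 2) - Real.log ((E - x) ^ 2 + y ^ 2)) l (𝓝 0) := by
  have h1 : Tendsto (fun x : ℝ => (10 * |E' - E|) / |x|) l (𝓝 0) :=
    tendsto_const_nhds.div_atTop hl
  refine squeeze_zero_norm' ?_ h1
  filter_upwards [hl.eventually_ge_atTop (2 * (|E| + |E'|) + 1)] with x hx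
  have hE := abs_nonneg E
  have hE' := abs_nonneg E'
  have hx0 : 0 < |x| := by linarith
  have k1 : |x| / 2 ≤ |E - x| := by
    have := abs_sub_abs_le_abs_sub x E
    rw [abs_sub_comm x E] at this
    linarith
  have k2 : |x| / 2 ≤ |E' - x| := by
    have := abs_sub_abs_le_abs_sub x E'
    rw [abs_sub_comm x E'] at this
    linarith
  obtain ⟨A, hA⟩ : ∃ A, A = (E' - x) ^ 2 + y ^ 2 := ⟨_, rfl⟩
  obtain ⟨B, hB⟩ : ∃ B, B = (E - x) ^ 2 + y ^ 2 := ⟨_, rfl⟩
  rw [← hA, ← hB, Real.norm_eq_abs]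
  have hA1 : x ^ 2 / 4 ≤ A := by
    have := pow_le_pow_left₀ (by positivity) k2 2
    rw [sq_abs, div_pow, sq_abs] at this
    rw [hA]
    nlinarith [sq_nonneg y]
  have hB1 : x ^ 2 / 4 ≤ B := by
    have := pow_le_pow_left₀ (by positivity) k1 2
    rw [sq_abs, div_pow, sq_abs] at this
    rw [hB]
    nlinarith [sq_nonneg y]
  have hx2 : 0 < x ^ 2 := by
    rw [← sq_abs]
    positivity
  have hA0 : 0 < A := by linarith
  have hB0 : 0 < B := by linarith
  have hAB : |A - B| ≤ |E' - E| * (5 / 2 * |x|) := by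
    have e1 : A - B = (E' - E) * (E' + E - 2 * x) := by rw [hA, hB]; ring
    rw [e1, abs_mul]
    apply mul_le_mul_of_nonneg_left _ (abs_nonneg _)
    have h2 : |E' + E - 2 * x| ≤ |E'| + |E| + 2 * |x| := by
      have h3 := abs_sub (E' + E) (2 * x)
      have h4 := abs_add_le E' E
      rw [abs_mul, abs_of_pos (by norm_num : (0 : ℝ) < 2)] at h3
      linarith
    linarith
  have hlog : ∀ a b : ℝ, x ^ 2 / 4 ≤ a → x ^ 2 / 4 ≤ b → |a - b| ≤ |E' - E| * (5 / 2 * |x|) →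
      Real.log a - Real.log b ≤ 10 * |E' - E| / |x| := by
    intro a b ha hb hab
    have ha0 : 0 < a := by linarith
    have hb0 : 0 < b := by linarith
    rw [← Real.log_div ha0.ne' hb0.ne']
    have h2 := Real.log_le_sub_one_of_pos (div_pos ha0 hb0)
    have h3 : a / b - 1 = (a - b) / b := by field_simp
    rw [h3] at h2
    refine h2.trans ?_
    have h4 : (a - b) / b ≤ |a - b| / b := by
      apply div_le_div_of_nonneg_right (le_abs_self _) hb0.le
    refine h4.trans ?_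
    rw [div_le_div_iff₀ hb0 hx0]
    calc |a - b| * |x| ≤ |E' - E| * (5 / 2 * |x|) * |x| := by gcongr
      _ = 10 * |E' - E| * (x ^ 2 / 4) := by
        rw [← sq_abs x]
        ring
      _ ≤ 10 * |E' - E| * b := by gcongr
  rw [abs_le]
  constructor
  · have := hlog B A hB1 hA1 (by rw [abs_sub_comm]; exact hAB)
    linarith
  · exact hlog A B hA1 hB1 hAB

theorem sq_deriv (E x y : ℝ) (hy : 0 < y) :
    HasDerivAt (fun x => Real.log ((E - x) ^ 2 + y ^ 2))
      (-(2 * (E - x)) / ((E - x) ^ 2 + y ^ 2)) x := by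
  have h1 : HasDerivAt (fun x : ℝ => (E - x) ^ 2 + y ^ 2) (-(2 * (E - x))) x := by
    have h2 := (((hasDerivAt_id x).const_sub E).pow 2).add_const (y ^ 2)
    refine h2.congr_deriv ?_
    simp
  exact h1.log (by positivity)

theorem key_alg (P Q r : ℂ) (hP : P ≠ 0) (hQ : Q ≠ 0) (h1 : P + r ≠ 0) (h2 : Q - r ≠ 0) :
    (r / 2) * (1 / (P * (P + r)) + 1 / ((Q - r) * Q)) + 1 / 2 * (-(2 * (Q - r / 2)) /
      ((Q - r) * Q) - -(2 * (P + r / 2)) / (P * (P + r))) = P⁻¹ - Q⁻¹ := by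
  field_simp
  ring

theorem key_alg2 (y w p : ℂ) (hy : y ≠ 0) (hw : w ≠ 0) :
    (y / w * (2 * p * Complex.I)) * ((-Complex.I / (2 * y)) * w) = p := by
  have h : (y / w * (2 * p * Complex.I)) * ((-Complex.I / (2 * y)) * w) =
      -(Complex.I * Complex.I) * p := by
    field_simp
  rw [h, Complex.I_mul_I]
  ring

/-- **the integral over all energies** -/
theorem Kz_total {y : ℝ} (hy : 0 < y) (E E' : ℝ) :
    ∫ x, Kz y E E' x = (Real.pi : ℂ) *
      (1 + -(Complex.I * ((E' - E : ℝ) : ℂ)) / ((2 * y : ℝ) : ℂ))⁻¹ := by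
  obtain ⟨c, hc⟩ : ∃ c : ℂ, c = (y : ℂ) / (((E' - E : ℝ) : ℂ) + 2 * (y : ℂ) * Complex.I) := ⟨_, rfl⟩
  have hyc : (y : ℂ) ≠ 0 := by exact_mod_cast hy.ne'
  have hden : ((E' - E : ℝ) : ℂ) + 2 * (y : ℂ) * Complex.I ≠ 0 := by
    intro h
    have h1 := congrArg Complex.im h
    simp at h1
    exact hy.ne' h1
  obtain ⟨F, hF⟩ : ∃ F : ℝ → ℂ, F = fun x => c * (Complex.I *
    ((Real.arctan ((x - E) / y) + Real.arctan ((x - E') / y) : ℝ) : ℂ) +
    ((1 / 2 * (Real.log ((E' - x) ^ 2 + y ^ 2) - Real.log ((E - x) ^ 2 + y ^ 2)) : ℝ) : ℂ)) :=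
    ⟨_, rfl⟩
  have hder : ∀ x, HasDerivAt F (Kz y E E' x) x := by
    intro x
    have h1 := ((Pz_deriv hy E x).add (Pz_deriv hy E' x)).ofReal_comp
    have h2 := (((sq_deriv E' x y hy).sub (sq_deriv E x y hy)).const_mul (1 / 2)).ofReal_comp
    have h3 := ((h1.const_mul Complex.I).add h2).const_mul c
    rw [hF]
    refine h3.congr_deriv ?_
    have n1 := den_ne hy E x
    have n2 : (starRingEnd ℂ) ((E' : ℂ) - ((x : ℂ) + (y : ℂ) * Complex.I)) ≠ 0 :=
      (map_ne_zero _).2 (den_ne hy E' x)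
    have e2 : (starRingEnd ℂ) ((E' : ℂ) - ((x : ℂ) + (y : ℂ) * Complex.I)) =
        (E' : ℂ) - x + (y : ℂ) * Complex.I := by
      rw [map_sub, map_add, map_mul, Complex.conj_ofReal, Complex.conj_ofReal, Complex.conj_ofReal,
        Complex.conj_I]
      ring
    rw [e2] at n2
    have m1 : ((E : ℂ) - x) ^ 2 + (y : ℂ) ^ 2 = ((E : ℂ) - ((x : ℂ) + (y : ℂ) * Complex.I)) *
        ((E : ℂ) - x + (y : ℂ) * Complex.I) := by
      linear_combination ((y : ℂ) ^ 2) * Complex.I_sq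
    have m2 : ((E' : ℂ) - x) ^ 2 + (y : ℂ) ^ 2 = ((E' : ℂ) - ((x : ℂ) + (y : ℂ) * Complex.I)) *
        ((E' : ℂ) - x + (y : ℂ) * Complex.I) := by
      linear_combination ((y : ℂ) ^ 2) * Complex.I_sq
    have n3 : ((E : ℂ) - x + (y : ℂ) * Complex.I) ≠ 0 := by
      intro h
      have h1 := congrArg Complex.im h
      simp at h1
      exact hy.ne' h1
    have n4 := den_ne hy E' x
    obtain ⟨P, hP⟩ : ∃ P : ℂ, P = (E : ℂ) - ((x : ℂ) + (y : ℂ) * Complex.I) := ⟨_, rfl⟩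
    obtain ⟨Q, hQ⟩ : ∃ Q : ℂ, Q = (E' : ℂ) - x + (y : ℂ) * Complex.I := ⟨_, rfl⟩
    have k1 : (E : ℂ) - x + (y : ℂ) * Complex.I = P + 2 * (y : ℂ) * Complex.I := by rw [hP]; ring
    have k2 : (E' : ℂ) - ((x : ℂ) + (y : ℂ) * Complex.I) = Q - 2 * (y : ℂ) * Complex.I := by
      rw [hQ]; ring
    have k3 : (E : ℂ) - x = P + (y : ℂ) * Complex.I := by rw [hP]; ring
    have k4 : (E' : ℂ) - x = Q - (y : ℂ) * Complex.I := by rw [hQ]; ring
    have k5 : ((E' - E : ℝ) : ℂ) + 2 * (y : ℂ) * Complex.I = Q - P := by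
      rw [hP, hQ]; push_cast; ring
    rw [hc]
    unfold Pz Kz
    rw [e2]
    push_cast
    rw [m1, m2]
    rw [← hP] at n1 m1 ⊢
    rw [← hQ] at n2 ⊢
    rw [k1] at n3 ⊢
    rw [k2] at n4 ⊢
    rw [k3, k4]
    rw [k5] at hden
    have k6 : (E' : ℂ) - E + 2 * (y : ℂ) * Complex.I = Q - P := by
      rw [← k5]; push_cast; ring
    rw [k6]
    have key : Complex.I * ((y : ℂ) / (P * (P + 2 * (y : ℂ) * Complex.I)) +
        (y : ℂ) / ((Q - 2 * (y : ℂ) * Complex.I) * Q)) +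
        1 / 2 * (-(2 * (Q - (y : ℂ) * Complex.I)) / ((Q - 2 * (y : ℂ) * Complex.I) * Q) -
          -(2 * (P + (y : ℂ) * Complex.I)) / (P * (P + 2 * (y : ℂ) * Complex.I))) = P⁻¹ - Q⁻¹ := by
      have k7 := key_alg P Q (2 * (y : ℂ) * Complex.I) n1 n2 n3 n4
      rw [← k7]
      ring
    rw [key]
    have hPQ : P⁻¹ - Q⁻¹ = (Q - P) / (P * Q) := by
      rw [inv_sub_inv n1 n2]
    rw [hPQ, div_mul_div_comm, mul_comm (Q - P), mul_div_mul_right _ _ hden]
  have hint := Kz_int hy E E'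
  have hbot : Tendsto F atBot (𝓝 (c * (Complex.I * ((-(Real.pi / 2) + -(Real.pi / 2) : ℝ) : ℂ) +
      ((1 / 2 * 0 : ℝ) : ℂ)))) := by
    rw [hF]
    have l1 := ((arctan_bot hy E).add (arctan_bot hy E')).ofReal
    have l2 := ((log_lim E E' y atBot tendsto_abs_atBot_atTop).const_mul (1 / 2)).ofReal
    exact ((l1.const_mul Complex.I).add l2).const_mul c
  have htop : Tendsto F atTop (𝓝 (c * (Complex.I * ((Real.pi / 2 + Real.pi / 2 : ℝ) : ℂ) +
      ((1 / 2 * 0 : ℝ) : ℂ)))) := by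
    rw [hF]
    have l1 := ((arctan_top hy E).add (arctan_top hy E')).ofReal
    have l2 := ((log_lim E E' y atTop tendsto_abs_atTop_atTop).const_mul (1 / 2)).ofReal
    exact ((l1.const_mul Complex.I).add l2).const_mul c
  rw [integral_of_hasDerivAt_of_tendsto hder hint hbot htop, hc]
  have h2y : ((2 * y : ℝ) : ℂ) ≠ 0 := by
    exact_mod_cast (by positivity : (2 * y : ℝ) ≠ 0)
  have hne2 : (1 + -(Complex.I * ((E' - E : ℝ) : ℂ)) / ((2 * y : ℝ) : ℂ)) ≠ 0 := by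
    have e5 : (1 + -(Complex.I * ((E' - E : ℝ) : ℂ)) / ((2 * y : ℝ) : ℂ)) =
        -Complex.I * (((E' - E : ℝ) : ℂ) + 2 * (y : ℂ) * Complex.I) / ((2 * y : ℝ) : ℂ) := by
      field_simp
      push_cast
      linear_combination (2 * (y : ℂ)) * Complex.I_sq
    rw [e5]
    exact div_ne_zero (mul_ne_zero (neg_ne_zero.2 Complex.I_ne_zero) hden) h2y
  rw [← div_eq_mul_inv, eq_div_iff hne2]
  have e6 : (1 + -(Complex.I * ((E' - E : ℝ) : ℂ)) / ((2 * y : ℝ) : ℂ)) =
      (-Complex.I / ((2 * y : ℝ) : ℂ)) * (((E' - E : ℝ) : ℂ) + 2 * (y : ℂ) * Complex.I) := by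
    field_simp
    push_cast
    linear_combination (2 * (y : ℂ)) * Complex.I_sq
  rw [e6]
  have k8 := key_alg2 (y : ℂ) (((E' - E : ℝ) : ℂ) + 2 * (y : ℂ) * Complex.I) (Real.pi : ℂ) hyc hden
  rw [← k8]
  push_cast
  ring

end Pool.Agent.X133.QD
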