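import Pool.Agent.X133.QD.Win

/-! Integrals over an energy window. -/

set_option autoImplicit false

open scoped BigOperators Topology
open MeasureTheory Filter Set

namespace Pool.Agent.X133.QD

open Pool.Agent.X133.QE (T1)

/-- the energy window -/
def Sw (e s0 : ℝ) : Set ℝ := Set.Ioc (e - s0) (e + s0)

theorem Sw_meas (e s0 : ℝ) : MeasurableSet (Sw e s0) := measurableSet_Ioc

theorem Sw_mem {e s0 x : ℝ} (hx : x ∈ Sw e s0) : |x - e| ≤ s0 := by
  obtain ⟨h1, h2⟩ := hx
  rw [abs_le]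
  constructor <;> linarith

theorem Sw_vol (e s0 : ℝ) (hs0 : 0 ≤ s0) : (volume (Sw e s0)) = ENNReal.ofReal (2 * s0) := by
  unfold Sw
  rw [Real.volume_Ioc]
  congr 1
  ring

theorem arctan_le (u : ℝ) (hu : 0 ≤ u) : Real.arctan u ≤ u := by
  have h1 : 0 ≤ Real.arctan u := Real.arctan_nonneg.2 hu
  have h2 := Real.le_tan h1 (Real.arctan_lt_pi_div_two u)
  rwa [Real.tan_arctan] at h2

theorem at_tail (a y h : ℝ) (hy : 0 < y) (hh : 0 < h) (ha : h ≤ a) :
    Real.pi / 2 - Real.arctan (a / y) ≤ y / h := by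
  have ha0 : 0 < a := hh.trans_le ha
  have h1 := Real.arctan_inv_of_pos (x := a / y) (by positivity)
  rw [← h1, inv_div]
  refine (arctan_le _ (by positivity)).trans ?_
  exact div_le_div_of_nonneg_left hy.le hh ha

theorem pin_eq {y : ℝ} (hy : 0 < y) (E e s0 : ℝ) (hs0 : 0 ≤ s0) :
    ∫ x in Sw e s0, Pz y E x = Real.arctan ((e + s0 - E) / y) + Real.arctan ((E - (e - s0)) / y) := by
  have h1 : ∫ x in (e - s0)..(e + s0), Pz y E x =
      Real.arctan ((e + s0 - E) / y) - Real.arctan ((e - s0 - E) / y) :=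
    intervalIntegral.integral_eq_sub_of_hasDerivAt (fun x _ => Pz_deriv hy E x)
      (Pz_int hy E).intervalIntegrable
  rw [intervalIntegral.integral_of_le (by linarith)] at h1
  unfold Sw
  rw [h1]
  have h2 : (e - s0 - E) / y = -((E - (e - s0)) / y) := by ring
  rw [h2, Real.arctan_neg]
  ring

theorem pin_le {y : ℝ} (hy : 0 < y) (E e s0 : ℝ) : ∫ x in Sw e s0, Pz y E x ≤ Real.pi := by
  rw [← Pz_total hy E]
  exact setIntegral_le_integral (Pz_int hy E) (Filter.Eventually.of_forall (Pz_nonneg hy E))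

theorem pin_nonneg {y : ℝ} (hy : 0 < y) (E e s0 : ℝ) : 0 ≤ ∫ x in Sw e s0, Pz y E x :=
  setIntegral_nonneg (Sw_meas e s0) fun x _ => Pz_nonneg hy E x

theorem pout_eq {y : ℝ} (hy : 0 < y) (E e s0 : ℝ) :
    ∫ x in (Sw e s0)ᶜ, Pz y E x = Real.pi - ∫ x in Sw e s0, Pz y E x := by
  rw [← Pz_total hy E, ← integral_add_compl (Sw_meas e s0) (Pz_int hy E)]
  ring

/-- the two edges -/
noncomputable def De (h E e s0 : ℝ) : ℝ := Pz h E (e + s0) + Pz h E (e - s0)

theorem De_ge {h : ℝ} (hh : 0 < h) (E e s0 r : ℝ) (hr : |(|E - e|) - s0| = r) :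
    h / (r ^ 2 + h ^ 2) ≤ De h E e s0 := by
  have h1 : Pz h E (e + s0) = h / (r ^ 2 + h ^ 2) ∨ Pz h E (e - s0) = h / (r ^ 2 + h ^ 2) := by
    rcases le_total e E with h2 | h2
    · left
      unfold Pz
      rw [← hr, abs_of_nonneg (by linarith : 0 ≤ E - e), sq_abs]
      congr 2
      ring
    · right
      unfold Pz
      rw [← hr, abs_of_nonpos (by linarith : E - e ≤ 0), sq_abs]
      congr 2
      ring
  have h3 := Pz_nonneg hh E (e + s0)
  have h4 := Pz_nonneg hh E (e - s0)
  unfold De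
  rcases h1 with h1 | h1 <;> rw [h1] <;> linarith

theorem near_edge {h : ℝ} (hh : 0 < h) (E e s0 r : ℝ) (hr0 : 0 ≤ r) (hr : |(|E - e|) - s0| = r)
    (hrh : r ≤ h) : Real.pi ≤ 2 * Real.pi * h * De h E e s0 := by
  have h1 := De_ge hh E e s0 r hr
  have h2 : 1 / (2 * h) ≤ h / (r ^ 2 + h ^ 2) := by
    rw [div_le_div_iff₀ (by positivity) (by positivity)]
    nlinarith
  have hpi := Real.pi_pos
  calc Real.pi = 2 * Real.pi * h * (1 / (2 * h)) := by field_simp
    _ ≤ 2 * Real.pi * h * De h E e s0 := by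
      apply mul_le_mul_of_nonneg_left (h2.trans h1) (by positivity)

/-- outside of the window -/
theorem edge_out {y h : ℝ} (hy : 0 < y) (hh : 0 < h) (E e s0 : ℝ) (hs0 : 0 < s0)
    (hE : s0 < |E - e|) :
    ∫ x in Sw e s0, Pz y E x ≤ (2 * Real.pi * h + 4 * s0 * y / h) * De h E e s0 := by
  obtain ⟨r, hr⟩ : ∃ r, r = |E - e| - s0 := ⟨_, rfl⟩
  have hr0 : 0 < r := by rw [hr]; linarith
  have hra : |(|E - e|) - s0| = r := by rw [← hr, abs_of_pos hr0]
  have hD := De_ge hh E e s0 r hra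
  have hD0 : 0 ≤ De h E e s0 := le_trans (by positivity) hD
  have hpi := Real.pi_pos
  rcases le_or_gt r h with h1 | h1
  · have h2 := near_edge hh E e s0 r hr0.le hra h1
    have h3 := pin_le hy E e s0
    have h4 : 0 ≤ 4 * s0 * y / h * De h E e s0 := by positivity
    rw [add_mul]
    linarith
  · have h2 : ‖∫ x in Sw e s0, Pz y E x‖ ≤ y / r ^ 2 * (volume (Sw e s0)).toReal := by
      apply norm_setIntegral_le_of_norm_le_const
      · rw [Sw_vol e s0 hs0.le]
        exact ENNReal.ofReal_lt_top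
      · intro x hx
        rw [Real.norm_of_nonneg (Pz_nonneg hy E x)]
        unfold Pz
        apply div_le_div_of_nonneg_left hy.le (by positivity)
        have h3 : r ≤ |E - x| := by
          have h4 := Sw_mem hx
          have h5 := abs_sub_abs_le_abs_sub (E - e) (x - e)
          rw [sub_sub_sub_cancel_right] at h5
          linarith
        have h6 : r ^ 2 ≤ (E - x) ^ 2 := by
          rw [← sq_abs (E - x)]
          exact pow_le_pow_left₀ hr0.le h3 2
        nlinarith [sq_nonneg y]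
    rw [Real.norm_of_nonneg (pin_nonneg hy E e s0), Sw_vol e s0 hs0.le,
      ENNReal.toReal_ofReal (by positivity)] at h2
    refine h2.trans ?_
    have h3 : 2 * s0 * (y / r ^ 2) ≤ 4 * s0 * y / h * (h / (r ^ 2 + h ^ 2)) := by
      have e1 : 4 * s0 * y / h * (h / (r ^ 2 + h ^ 2)) = 4 * s0 * y / (r ^ 2 + h ^ 2) := by
        field_simp
      have e2 : 2 * s0 * (y / r ^ 2) = 4 * s0 * y / (2 * r ^ 2) := by
        field_simp
        ring
      rw [e1, e2]
      apply div_le_div_of_nonneg_left (by positivity) (by positivity)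
      nlinarith
    have h4 : 4 * s0 * y / h * (h / (r ^ 2 + h ^ 2)) ≤ 4 * s0 * y / h * De h E e s0 :=
      mul_le_mul_of_nonneg_left hD (by positivity)
    have h5 : 0 ≤ 2 * Real.pi * h * De h E e s0 := by positivity
    rw [add_mul]
    linarith

/-- inside of the window -/
theorem edge_in {y h : ℝ} (hy : 0 < y) (hh : 0 < h) (E e s0 : ℝ) (hs0 : 0 < s0)
    (hE : |E - e| ≤ s0) :
    ∫ x in (Sw e s0)ᶜ, Pz y E x ≤ 2 * Real.pi * h * De h E e s0 + 2 * (y / h) := by
  obtain ⟨r, hr⟩ : ∃ r, r = s0 - |E - e| := ⟨_, rfl⟩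
  have hr0 : 0 ≤ r := by rw [hr]; linarith
  have hra : |(|E - e|) - s0| = r := by rw [abs_sub_comm, ← hr, abs_of_nonneg hr0]
  have hpi := Real.pi_pos
  rw [pout_eq hy]
  rcases le_or_gt r h with h1 | h1
  · have h2 := near_edge hh E e s0 r hr0 hra h1
    have h3 := pin_nonneg hy E e s0
    have h4 : 0 ≤ 2 * (y / h) := by positivity
    linarith
  · rw [pin_eq hy E e s0 hs0.le]
    obtain ⟨h5, h6⟩ := abs_le.1 (le_refl |E - e|)
    have h2 := at_tail (e + s0 - E) y h hy hh (by linarith)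
    have h3 := at_tail (E - (e - s0)) y h hy hh (by linarith)
    have h4 : 0 ≤ 2 * Real.pi * h * De h E e s0 := by
      have := Pz_nonneg hh E (e + s0)
      have := Pz_nonneg hh E (e - s0)
      unfold De
      positivity
    linarith

/-- most of the mass of a Poisson kernel in the window stays inside -/
theorem pin_ge {y : ℝ} (hy : 0 < y) (E e s0 : ℝ) (hy0 : y ≤ s0) (hE : |E - e| ≤ s0) :
    Real.pi / 4 ≤ ∫ x in Sw e s0, Pz y E x := by
  have hs0 : 0 < s0 := hy.trans_le hy0
  rw [pin_eq hy E e s0 hs0.le]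
  obtain ⟨h5, h6⟩ := abs_le.1 hE
  rw [← Real.arctan_one]
  rcases le_total e E with h1 | h1
  · have h2 : Real.arctan 1 ≤ Real.arctan ((E - (e - s0)) / y) := by
      apply Real.arctan_mono
      rw [le_div_iff₀ hy]
      linarith
    have h3 : 0 ≤ Real.arctan ((e + s0 - E) / y) := by
      apply Real.arctan_nonneg.2
      apply div_nonneg _ hy.le
      linarith
    linarith
  · have h2 : Real.arctan 1 ≤ Real.arctan ((e + s0 - E) / y) := by
      apply Real.arctan_mono
      rw [le_div_iff₀ hy]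
      linarith
    have h3 : 0 ≤ Real.arctan ((E - (e - s0)) / y) := by
      apply Real.arctan_nonneg.2
      apply div_nonneg _ hy.le
      linarith
    linarith

/-- the error inside of the window -/
theorem K_in {y : ℝ} (hy : 0 < y) (E E' e s0 t : ℝ) (ht : 0 < t) :
    ‖∫ x in (Sw e s0)ᶜ, Kz y E E' x‖ ≤
      (t * (∫ x in (Sw e s0)ᶜ, Pz y E x) + Real.pi / t) / 2 := by
  refine (norm_integral_le_integral_norm _).trans ?_
  have hi1 := (Pz_int hy E).integrableOn (s := (Sw e s0)ᶜ)
  have hi2 := (Pz_int hy E').integrableOn (s := (Sw e s0)ᶜ)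
  have h1 : ∫ x in (Sw e s0)ᶜ, ‖Kz y E E' x‖ ≤
      ∫ x in (Sw e s0)ᶜ, (t * Pz y E x + Pz y E' x / t) / 2 := by
    apply integral_mono
    · exact (Kz_int hy E E').norm.integrableOn
    · exact ((hi1.const_mul t).add (hi2.div_const t)).div_const 2
    · exact fun x => Kz_norm hy E E' x t ht
  refine h1.trans ?_
  rw [integral_div, integral_add (hi1.const_mul t) (hi2.div_const t), integral_const_mul,
    integral_div]
  have h2 : ∫ x in (Sw e s0)ᶜ, Pz y E' x ≤ Real.pi := by
    rw [← Pz_total hy E']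
    exact setIntegral_le_integral (Pz_int hy E') (Filter.Eventually.of_forall (Pz_nonneg hy E'))
  have h3 : (∫ x in (Sw e s0)ᶜ, Pz y E' x) / t ≤ Real.pi / t :=
    div_le_div_of_nonneg_right h2 ht.le
  linarith

/-- the error outside of the window -/
theorem K_out {y : ℝ} (hy : 0 < y) (E E' e s0 t : ℝ) (ht : 0 < t) :
    ‖∫ x in Sw e s0, Kz y E E' x‖ ≤
      (t * (∫ x in Sw e s0, Pz y E x) + (∫ x in Sw e s0, Pz y E' x) / t) / 2 := by
  refine (norm_integral_le_integral_norm _).trans ?_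
  have hi1 := (Pz_int hy E).integrableOn (s := Sw e s0)
  have hi2 := (Pz_int hy E').integrableOn (s := Sw e s0)
  have h1 : ∫ x in Sw e s0, ‖Kz y E E' x‖ ≤
      ∫ x in Sw e s0, (t * Pz y E x + Pz y E' x / t) / 2 := by
    apply integral_mono
    · exact (Kz_int hy E E').norm.integrableOn
    · exact ((hi1.const_mul t).add (hi2.div_const t)).div_const 2
    · exact fun x => Kz_norm hy E E' x t ht
  refine h1.trans ?_
  rw [integral_div, integral_add (hi1.const_mul t) (hi2.div_const t), integral_const_mul,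
    integral_div]

end Pool.Agent.X133.QD
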