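import Pool.Agent.X133.QD.Win2

/-! Microcanonical averages from the product of resolvents. -/

set_option autoImplicit false

open scoped BigOperators Topology
open MeasureTheory Filter Set

namespace Pool.Agent.X133.QD

open Pool.Agent.X133.QE (T1)

variable {ι : Type*} [Fintype ι]

theorem T1_K (En : ι → ℝ) (w : ι → ι → ℝ) (y x : ℝ) :
    (y : ℂ) * T1 En w ((x : ℂ) + (y : ℂ) * Complex.I) =
      ∑ m, ∑ n, (w m n : ℂ) * Kz y (En m) (En n) x := by
  unfold T1 Kz
  rw [Finset.mul_sum]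
  refine Finset.sum_congr rfl fun m _ => ?_
  rw [Finset.mul_sum]
  refine Finset.sum_congr rfl fun n _ => ?_
  rw [div_eq_mul_one_div (y : ℂ)]
  ring

/-- **from the product of resolvents to microcanonical averages** -/
theorem win_main (En : ι → ℝ) (w : ι → ι → ℝ) (hw : ∀ m n, 0 ≤ w m n)
    (hrow : ∀ m, ∑ n, w m n = 1) (hcol : ∀ n, ∑ m, w m n = 1) (e s0 y h Lc g r δ0 t : ℝ)
    (hs0 : 0 < s0) (hy : 0 < y) (hLc : 0 ≤ Lc) (hg : 0 < g) (hδ0 : 0 ≤ δ0) (hδg : δ0 ≤ g)
    (ht : 1 ≤ t) (hh : h = s0 / t ^ 2) (hy4 : y ≤ s0 / t ^ 4)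
    (h1 : ∀ x, |x - e| ≤ s0 → ‖(y : ℂ) * T1 En w ((x : ℂ) + (y : ℂ) * Complex.I) -
      ((Lc * g * r : ℝ) : ℂ)‖ ≤ δ0 * Lc)
    (h0 : ∀ x, |x - e| ≤ s0 → ∑ n, Pz y (En n) x ≤ (g + δ0) * Lc)
    (h0' : ∀ x, |x - e| ≤ s0 → ∑ n, Pz h (En n) x ≤ (g + δ0) * Lc) :
    ‖(∑ m, ∑ n, (if |En m - e| ≤ s0 then (w m n : ℂ) * ((Real.pi : ℂ) *
      (1 + -(Complex.I * ((En n - En m : ℝ) : ℂ)) / ((2 * y : ℝ) : ℂ))⁻¹) else 0)) -
      ((2 * s0 * Lc * g * r : ℝ) : ℂ)‖ ≤ (δ0 / g + 20 / t) * (2 * s0 * Lc * g) := by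
  have ht0 : 0 < t := by linarith
  have hh0 : 0 < h := by rw [hh]; positivity
  have hpi := Real.pi_pos
  have hpi3 := Real.pi_gt_three
  have hpi4 := Real.pi_lt_d2
  obtain ⟨p, hp⟩ : ∃ p : ι → ℝ, p = fun n => ∫ x in Sw e s0, Pz y (En n) x := ⟨_, rfl⟩
  have hpn : ∀ n, p n = ∫ x in Sw e s0, Pz y (En n) x := fun n => by rw [hp]
  have hp0 : ∀ n, 0 ≤ p n := fun n => by rw [hpn]; exact pin_nonneg hy _ _ _
  obtain ⟨q, hq⟩ : ∃ q : ι → ℝ, q = fun n => ∫ x in (Sw e s0)ᶜ, Pz y (En n) x := ⟨_, rfl⟩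
  have hqn : ∀ n, q n = ∫ x in (Sw e s0)ᶜ, Pz y (En n) x := fun n => by rw [hq]
  obtain ⟨G, hG⟩ : ∃ G, G = 2 * s0 * Lc * g := ⟨_, rfl⟩
  have hG0 : 0 ≤ G := by rw [hG]; positivity
  have hgδ : g + δ0 ≤ 2 * g := by linarith
  -- the total
  have htot : ∑ n, p n ≤ 2 * G := by
    have e1 : ∑ n, p n = ∫ x in Sw e s0, ∑ n, Pz y (En n) x := by
      rw [integral_finsetSum _ fun n _ => (Pz_int hy (En n)).integrableOn]
      exact Finset.sum_congr rfl fun n _ => hpn n
    have e2 : ‖∫ x in Sw e s0, ∑ n, Pz y (En n) x‖ ≤ (g + δ0) * Lc * (volume (Sw e s0)).toReal := by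
      apply norm_setIntegral_le_of_norm_le_const
      · rw [Sw_vol e s0 hs0.le]
        exact ENNReal.ofReal_lt_top
      · intro x hx
        rw [Real.norm_of_nonneg (Finset.sum_nonneg fun n _ => Pz_nonneg hy _ _)]
        exact h0 x (Sw_mem hx)
    rw [Sw_vol e s0 hs0.le, ENNReal.toReal_ofReal (by positivity)] at e2
    rw [e1]
    refine (le_abs_self _).trans (e2.trans ?_)
    calc (g + δ0) * Lc * (2 * s0) ≤ 2 * g * Lc * (2 * s0) := by gcongr
      _ = 2 * G := by rw [hG]; ring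
  -- the number of eigenvalues
  obtain ⟨N, hN⟩ : ∃ N : ℝ, N = ∑ m, (if |En m - e| ≤ s0 then (1 : ℝ) else 0) := ⟨_, rfl⟩
  have hN0 : 0 ≤ N := by
    rw [hN]
    exact Finset.sum_nonneg fun m _ => by split_ifs <;> norm_num
  have hys0 : y ≤ s0 := by
    refine hy4.trans ?_
    exact div_le_self hs0.le (one_le_pow₀ ht)
  have hNG : N ≤ 8 / 3 * G := by
    have e1 : Real.pi / 4 * N ≤ ∑ n, p n := by
      rw [hN, Finset.mul_sum]
      refine Finset.sum_le_sum fun n _ => ?_
      split_ifs with h2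
      · rw [mul_one, hpn]
        exact pin_ge hy _ _ _ hys0 h2
      · rw [mul_zero]
        exact hp0 n
    have e2 : 3 / 4 * N ≤ Real.pi / 4 * N := by
      apply mul_le_mul_of_nonneg_right _ hN0
      linarith
    linarith
  -- the edges
  have hD : ∑ m, De h (En m) e s0 ≤ 4 * g * Lc := by
    unfold De
    rw [Finset.sum_add_distrib]
    have e1 := h0' (e + s0) (by rw [add_sub_cancel_left, abs_of_pos hs0])
    have e2 := h0' (e - s0) (by rw [sub_sub_cancel_left, abs_neg, abs_of_pos hs0])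
    have e3 : (g + δ0) * Lc ≤ 2 * g * Lc := mul_le_mul_of_nonneg_right hgδ hLc
    linarith
  have hD0 : ∀ m, 0 ≤ De h (En m) e s0 := fun m => by
    have := Pz_nonneg hh0 (En m) (e + s0)
    have := Pz_nonneg hh0 (En m) (e - s0)
    unfold De
    positivity
  have hyh : y / h ≤ 1 / t ^ 2 := by
    rw [div_le_iff₀ hh0, hh]
    refine hy4.trans (le_of_eq ?_)
    field_simp
  have hcoef : 2 * Real.pi * h + 4 * s0 * y / h ≤ 11 * h := by
    have e1 : 4 * s0 * y / h = 4 * s0 * (y / h) := by ring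
    have e2 : 4 * s0 * (y / h) ≤ 4 * s0 * (1 / t ^ 2) := by gcongr
    have e3 : 4 * s0 * (1 / t ^ 2) = 4 * h := by rw [hh]; ring
    have e4 : 2 * Real.pi * h ≤ 2 * 3.15 * h := by gcongr
    rw [e1]
    linarith
  -- one row
  obtain ⟨Ki, hKi⟩ : ∃ Ki : ι → ι → ℂ, Ki = fun m n => ∫ x in Sw e s0, Kz y (En m) (En n) x :=
    ⟨_, rfl⟩
  obtain ⟨Ko, hKo⟩ : ∃ Ko : ι → ι → ℂ, Ko = fun m n => ∫ x in (Sw e s0)ᶜ, Kz y (En m) (En n) x :=
    ⟨_, rfl⟩
  have hKsum : ∀ m n, (Real.pi : ℂ) *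
      (1 + -(Complex.I * ((En n - En m : ℝ) : ℂ)) / ((2 * y : ℝ) : ℂ))⁻¹ = Ki m n + Ko m n := by
    intro m n
    rw [← Kz_total hy, hKi, hKo, ← integral_add_compl (Sw_meas e s0) (Kz_int hy (En m) (En n))]
  have hmain : ‖∑ m, ∑ n, (w m n : ℂ) * Ki m n - ((2 * s0 * Lc * g * r : ℝ) : ℂ)‖ ≤
      2 * s0 * (δ0 * Lc) := by
    have e1 : ∑ m, ∑ n, (w m n : ℂ) * Ki m n = ∫ x in Sw e s0,
        (y : ℂ) * T1 En w ((x : ℂ) + (y : ℂ) * Complex.I) := by
      have e2 : ∀ x : ℝ, (y : ℂ) * T1 En w ((x : ℂ) + (y : ℂ) * Complex.I) =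
          ∑ m, ∑ n, (w m n : ℂ) * Kz y (En m) (En n) x := fun x => T1_K En w y x
      simp only [e2]
      rw [integral_finsetSum _ fun m _ => integrable_finsetSum _ fun n _ =>
        ((Kz_int hy (En m) (En n)).integrableOn).const_mul _]
      refine Finset.sum_congr rfl fun m _ => ?_
      rw [integral_finsetSum _ fun n _ => ((Kz_int hy (En m) (En n)).integrableOn).const_mul _]
      refine Finset.sum_congr rfl fun n _ => ?_
      rw [integral_const_mul, hKi]
    have hint : IntegrableOn (fun x : ℝ => (y : ℂ) * T1 En w ((x : ℂ) + (y : ℂ) * Complex.I))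
        (Sw e s0) := by
      have e2 : (fun x : ℝ => (y : ℂ) * T1 En w ((x : ℂ) + (y : ℂ) * Complex.I)) =
          fun x => ∑ m, ∑ n, (w m n : ℂ) * Kz y (En m) (En n) x := by
        funext x
        exact T1_K En w y x
      rw [e2]
      exact integrable_finsetSum _ fun m _ => integrable_finsetSum _ fun n _ =>
        ((Kz_int hy (En m) (En n)).integrableOn).const_mul _
    have hfin : volume (Sw e s0) < ⊤ := by
      rw [Sw_vol e s0 hs0.le]
      exact ENNReal.ofReal_lt_top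
    have e3 : ((2 * s0 * Lc * g * r : ℝ) : ℂ) = ∫ _ in Sw e s0, ((Lc * g * r : ℝ) : ℂ) := by
      rw [setIntegral_const, measureReal_def, Sw_vol e s0 hs0.le,
        ENNReal.toReal_ofReal (by positivity), Complex.real_smul]
      push_cast
      ring
    rw [e1, e3, ← integral_sub hint (integrableOn_const hfin.ne)]
    have e4 : ‖∫ x in Sw e s0, ((y : ℂ) * T1 En w ((x : ℂ) + (y : ℂ) * Complex.I) -
        ((Lc * g * r : ℝ) : ℂ))‖ ≤ δ0 * Lc * (volume (Sw e s0)).toReal := by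
      apply norm_setIntegral_le_of_norm_le_const hfin
      intro x hx
      exact h1 x (Sw_mem hx)
    rw [Sw_vol e s0 hs0.le, ENNReal.toReal_ofReal (by positivity)] at e4
    linarith
  have hdiff : ‖(∑ m, ∑ n, (if |En m - e| ≤ s0 then (w m n : ℂ) * ((Real.pi : ℂ) *
      (1 + -(Complex.I * ((En n - En m : ℝ) : ℂ)) / ((2 * y : ℝ) : ℂ))⁻¹) else 0)) -
      ∑ m, ∑ n, (w m n : ℂ) * Ki m n‖ ≤
      t / 2 * (11 * h) * (4 * g * Lc) + N * (t * (y / h) + Real.pi / (2 * t)) +
        (2 * G) / (2 * t) := by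
    rw [← Finset.sum_sub_distrib]
    have hrowm : ∀ m, ‖∑ n, (if |En m - e| ≤ s0 then (w m n : ℂ) * ((Real.pi : ℂ) *
        (1 + -(Complex.I * ((En n - En m : ℝ) : ℂ)) / ((2 * y : ℝ) : ℂ))⁻¹) else 0) -
        ∑ n, (w m n : ℂ) * Ki m n‖ ≤ t / 2 * (11 * h) * De h (En m) e s0 +
          (if |En m - e| ≤ s0 then (1 : ℝ) else 0) * (t * (y / h) + Real.pi / (2 * t)) +
          ∑ n, w m n * (p n / (2 * t)) := by
      intro m
      have hpos : 0 ≤ ∑ n, w m n * (p n / (2 * t)) :=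
        Finset.sum_nonneg fun n _ => mul_nonneg (hw m n) (div_nonneg (hp0 n) (by positivity))
      rw [← Finset.sum_sub_distrib]
      split_ifs with h2
      · have e1 : ∀ n, (w m n : ℂ) * ((Real.pi : ℂ) *
            (1 + -(Complex.I * ((En n - En m : ℝ) : ℂ)) / ((2 * y : ℝ) : ℂ))⁻¹) -
            (w m n : ℂ) * Ki m n = (w m n : ℂ) * Ko m n := by
          intro n
          rw [hKsum]
          ring
        rw [Finset.sum_congr rfl fun n _ => e1 n]
        have e2 : ∀ n, ‖(w m n : ℂ) * Ko m n‖ ≤ w m n * ((t * q m + Real.pi / t) / 2) := by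
          intro n
          rw [norm_mul, Complex.norm_real, Real.norm_of_nonneg (hw m n)]
          apply mul_le_mul_of_nonneg_left _ (hw m n)
          rw [hKo, hqn]
          exact K_in hy _ _ _ _ _ ht0
        refine (norm_sum_le _ _).trans ((Finset.sum_le_sum fun n _ => e2 n).trans ?_)
        rw [← Finset.sum_mul, hrow, one_mul]
        have e3 : q m ≤ 2 * Real.pi * h * De h (En m) e s0 + 2 * (y / h) := by
          rw [hqn]
          exact edge_in hy hh0 _ _ _ hs0 h2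
        have e4 : 2 * Real.pi * h * De h (En m) e s0 ≤ 11 * h * De h (En m) e s0 := by
          apply mul_le_mul_of_nonneg_right _ (hD0 m)
          have : 0 ≤ 4 * s0 * y / h := by positivity
          linarith
        have e5 : t * q m ≤ t * (11 * h * De h (En m) e s0 + 2 * (y / h)) := by
          gcongr
          linarith
        have e6 : (t * q m + Real.pi / t) / 2 ≤
            t / 2 * (11 * h) * De h (En m) e s0 + 1 * (t * (y / h) + Real.pi / (2 * t)) := by
          have e7 : Real.pi / (2 * t) = Real.pi / t / 2 := by field_simp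
          rw [e7]
          linarith
        linarith
      · push Not at h2
        have e1 : ∀ n, (0 : ℂ) - (w m n : ℂ) * Ki m n = -((w m n : ℂ) * Ki m n) := fun n => by ring
        rw [Finset.sum_congr rfl fun n _ => e1 n]
        have e2 : ∀ n, ‖-((w m n : ℂ) * Ki m n)‖ ≤ w m n * ((t * p m) / 2) +
            w m n * (p n / (2 * t)) := by
          intro n
          rw [norm_neg, norm_mul, Complex.norm_real, Real.norm_of_nonneg (hw m n), ← mul_add]
          apply mul_le_mul_of_nonneg_left _ (hw m n)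
          rw [hKi, hpn m, hpn n]
          refine (K_out hy _ _ _ _ _ ht0).trans (le_of_eq ?_)
          field_simp
        refine (norm_sum_le _ _).trans ((Finset.sum_le_sum fun n _ => e2 n).trans ?_)
        rw [Finset.sum_add_distrib, ← Finset.sum_mul, hrow, one_mul]
        have e3 : p m ≤ (2 * Real.pi * h + 4 * s0 * y / h) * De h (En m) e s0 := by
          rw [hpn]
          exact edge_out hy hh0 _ _ _ hs0 h2
        have e4 : p m ≤ 11 * h * De h (En m) e s0 :=
          e3.trans (mul_le_mul_of_nonneg_right hcoef (hD0 m))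
        have e5 : t * p m ≤ t * (11 * h * De h (En m) e s0) := by gcongr
        rw [zero_mul]
        linarith
    refine (norm_sum_le _ _).trans ((Finset.sum_le_sum fun m _ => hrowm m).trans ?_)
    rw [Finset.sum_add_distrib, Finset.sum_add_distrib, ← Finset.mul_sum, ← Finset.sum_mul, ← hN]
    have e1 : ∑ m, ∑ n, w m n * (p n / (2 * t)) = (∑ n, p n) / (2 * t) := by
      rw [Finset.sum_comm, Finset.sum_div]
      refine Finset.sum_congr rfl fun n _ => ?_
      rw [← Finset.sum_mul, hcol, one_mul]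
    rw [e1]
    have e2 : (∑ n, p n) / (2 * t) ≤ (2 * G) / (2 * t) :=
      div_le_div_of_nonneg_right htot (by positivity)
    have e3 : t / 2 * (11 * h) * ∑ m, De h (En m) e s0 ≤ t / 2 * (11 * h) * (4 * g * Lc) :=
      mul_le_mul_of_nonneg_left hD (by positivity)
    linarith
  have htri := norm_add_le ((∑ m, ∑ n, (if |En m - e| ≤ s0 then (w m n : ℂ) * ((Real.pi : ℂ) *
      (1 + -(Complex.I * ((En n - En m : ℝ) : ℂ)) / ((2 * y : ℝ) : ℂ))⁻¹) else 0)) -
      ∑ m, ∑ n, (w m n : ℂ) * Ki m n)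
      (∑ m, ∑ n, (w m n : ℂ) * Ki m n - ((2 * s0 * Lc * g * r : ℝ) : ℂ))
  rw [sub_add_sub_cancel] at htri
  refine htri.trans ((add_le_add hdiff hmain).trans ?_)
  rw [← hG]
  -- numerics
  have b1 : t / 2 * (11 * h) * (4 * g * Lc) = 11 * G / t := by
    rw [hG, hh]
    field_simp
    ring
  have b2 : t * (y / h) ≤ 1 / t := by
    calc t * (y / h) ≤ t * (1 / t ^ 2) := by gcongr
      _ = 1 / t := by field_simp
  have b3 : Real.pi / (2 * t) ≤ 1.6 / t := by
    rw [div_le_div_iff₀ (by positivity) ht0]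
    nlinarith
  have b4 : N * (t * (y / h) + Real.pi / (2 * t)) ≤ 8 / 3 * G * (2.6 / t) := by
    have b5 : t * (y / h) + Real.pi / (2 * t) ≤ 2.6 / t := by
      have : (2.6 : ℝ) / t = 1 / t + 1.6 / t := by ring
      linarith
    have b6 : 0 ≤ t * (y / h) + Real.pi / (2 * t) := by positivity
    calc N * (t * (y / h) + Real.pi / (2 * t)) ≤ 8 / 3 * G * (t * (y / h) + Real.pi / (2 * t)) :=
          mul_le_mul_of_nonneg_right hNG b6
      _ ≤ 8 / 3 * G * (2.6 / t) := by
          apply mul_le_mul_of_nonneg_left b5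
          positivity
  have b7 : 2 * s0 * (δ0 * Lc) = δ0 / g * G := by
    rw [hG]
    field_simp
  rw [b1, b7]
  have b8 : 2 * G / (2 * t) = G / t := by field_simp
  rw [b8]
  have b9 : 0 ≤ G / t := by positivity
  have b10 : 8 / 3 * G * (2.6 / t) = 8 / 3 * 2.6 * (G / t) := by ring
  have b11 : 11 * G / t = 11 * (G / t) := by ring
  have b12 : (δ0 / g + 20 / t) * G = δ0 / g * G + 20 * (G / t) := by ring
  rw [b12, b11]
  rw [b10] at b4
  linarith

end Pool.Agent.X133.QD
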